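import Pool.Agent.Helper56.AP.Defs3
import Pool.Agent.Helper57.BG.Data

/-!
# A', block UP, part 2: dyadic boxes and the sums of helper57 in real form
-/

open Filter Topology Finset
open Pool.Agent.Helper57.BG

set_option autoImplicit false

namespace Pool.Agent.Helper72.APU

open Pool.Agent.AP

/-- `u/φ(u)` -/
noncomputable def gf (u : ℕ) : ℝ := (u : ℝ) / Nat.totient u

lemma gf_nonneg (u : ℕ) : 0 ≤ gf u := by unfold gf; positivity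

lemma gf_mul {a b : ℕ} (h : Nat.Coprime a b) : gf (a * b) = gf a * gf b := by
  unfold gf
  rw [Nat.totient_mul h]
  push_cast
  rw [mul_div_mul_comm]

lemma gf_one : gf 1 = 1 := by simp [gf]

lemma gf_le {u : ℕ} (h : u.primeFactors.card ≤ 7) : gf u ≤ 128 := by
  unfold gf
  have h1 : (Nat.totient u : ℝ) = u * ∏ p ∈ u.primeFactors, (1 - (p : ℝ)⁻¹) := by
    have := Nat.totient_eq_mul_prod_factors u
    have h2 : ((Nat.totient u : ℚ) : ℝ) = ((u * ∏ p ∈ u.primeFactors, (1 - (p : ℚ)⁻¹) : ℚ) : ℝ) := by rw [this]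
    push_cast at h2
    exact h2
  have h3 : (1 / 128 : ℝ) ≤ ∏ p ∈ u.primeFactors, (1 - (p : ℝ)⁻¹) := by
    calc (1 / 128 : ℝ) = (1 / 2) ^ 7 := by norm_num
      _ ≤ (1 / 2) ^ u.primeFactors.card := pow_le_pow_of_le_one (by norm_num) (by norm_num) h
      _ = ∏ p ∈ u.primeFactors, (1 / 2 : ℝ) := by rw [prod_const]
      _ ≤ _ := by
          refine prod_le_prod (fun _ _ => by norm_num) fun p hp => ?_
          have h4 : (2 : ℝ) ≤ p := by exact_mod_cast (Nat.prime_of_mem_primeFactors hp).two_le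
          have h5 : (p : ℝ)⁻¹ ≤ 2⁻¹ := inv_anti₀ (by norm_num) h4
          norm_num at h5 ⊢
          linarith
  rcases Nat.eq_zero_or_pos u with h0 | h0
  · subst h0; norm_num
  have hu : (0 : ℝ) < u := by exact_mod_cast h0
  rw [div_le_iff₀ (by exact_mod_cast Nat.totient_pos.2 h0), h1]
  nlinarith

/-! ## dyadic decomposition -/

/-- the dyadic point -/
noncomputable def dyX (j : ℕ) : ℝ := 2 ^ j - 1 / 2

lemma dyX_spec {u j : ℕ} (hu : u ≠ 0) (h : Nat.log 2 u = j) : dyX j < u ∧ (u : ℝ) ≤ 2 * dyX j := by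
  have h1 : 2 ^ j ≤ u := h ▸ Nat.pow_log_le_self 2 hu
  have h2 : u + 1 ≤ 2 ^ (j + 1) := h ▸ Nat.lt_pow_succ_log_self (by norm_num) u
  have h3 : ((2 : ℝ)) ^ j ≤ u := by exact_mod_cast h1
  have h4 : (u : ℝ) + 1 ≤ 2 ^ (j + 1) := by exact_mod_cast h2
  unfold dyX
  rw [pow_succ] at h4
  constructor <;> linarith

lemma dyX_pos (j : ℕ) : 0 < dyX j := by
  have : (1 : ℝ) ≤ 2 ^ j := one_le_pow₀ (by norm_num)
  unfold dyX
  linarith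

lemma dy1 {S : Finset ℕ} {N : ℕ} (h : ∀ u ∈ S, Nat.log 2 u < N) (F : ℕ → ℝ) (B : ℝ)
    (hB : ∀ i, |∑ u ∈ S.filter (fun u => Nat.log 2 u = i), F u| ≤ B) : |∑ u ∈ S, F u| ≤ N * B := by
  rw [← Finset.sum_fiberwise_of_maps_to (t := range N) (g := Nat.log 2) (fun u hu => mem_range.2 (h u hu)) F]
  calc |∑ i ∈ range N, ∑ u ∈ S with Nat.log 2 u = i, F u| ≤ ∑ i ∈ range N, |∑ u ∈ S with Nat.log 2 u = i, F u| :=
        abs_sum_le_sum_abs _ _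
    _ ≤ ∑ i ∈ range N, B := sum_le_sum fun i _ => hB i
    _ = N * B := by simp

lemma dy2 {S₁ S₂ : Finset ℕ} {N : ℕ} (h₁ : ∀ u ∈ S₁, Nat.log 2 u < N) (h₂ : ∀ u ∈ S₂, Nat.log 2 u < N)
    (F : ℕ → ℕ → ℝ) (B : ℝ)
    (hB : ∀ i j, |∑ u ∈ S₁.filter (fun u => Nat.log 2 u = i), ∑ v ∈ S₂.filter (fun v => Nat.log 2 v = j), F u v| ≤ B) :
    |∑ u ∈ S₁, ∑ v ∈ S₂, F u v| ≤ (N : ℝ) ^ 2 * B := by
  have : (N : ℝ) ^ 2 * B = N * (N * B) := by ring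
  rw [this]
  refine dy1 h₁ _ _ fun i => ?_
  rw [sum_comm]
  refine dy1 h₂ _ _ fun j => ?_
  rw [sum_comm]
  exact hB i j

lemma dy3 {S₁ S₂ S₃ : Finset ℕ} {N : ℕ} (h₁ : ∀ u ∈ S₁, Nat.log 2 u < N) (h₂ : ∀ u ∈ S₂, Nat.log 2 u < N)
    (h₃ : ∀ u ∈ S₃, Nat.log 2 u < N) (F : ℕ → ℕ → ℕ → ℝ) (B : ℝ)
    (hB : ∀ i j l, |∑ u ∈ S₁.filter (fun u => Nat.log 2 u = i), ∑ v ∈ S₂.filter (fun v => Nat.log 2 v = j),
      ∑ w ∈ S₃.filter (fun w => Nat.log 2 w = l), F u v w| ≤ B) :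
    |∑ u ∈ S₁, ∑ v ∈ S₂, ∑ w ∈ S₃, F u v w| ≤ (N : ℝ) ^ 3 * B := by
  have : (N : ℝ) ^ 3 * B = N * (N ^ 2 * B) := by ring
  rw [this]
  have hsw : ∀ A C D : Finset ℕ, ∑ u ∈ A, ∑ v ∈ C, ∑ w ∈ D, F u v w = ∑ v ∈ C, ∑ w ∈ D, ∑ u ∈ A, F u v w := by
    intro A C D
    rw [sum_comm]
    exact sum_congr rfl fun v _ => sum_comm
  refine dy1 h₁ _ _ fun i => ?_
  rw [hsw]
  refine dy2 h₂ h₃ _ _ fun j l => ?_
  rw [← hsw]
  exact hB i j l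

/-! ## the box sum -/

open Classical in
/-- one term -/
noncomputable def TT (k : ℤ) (α β : ℕ → ℝ) (q1 q w m l : ℕ) : ℝ :=
  if l ∣ q * w then 0 else α m * β l * (gf q1 * gf q * gf w) *
    ((if ((q1 * (q * w) : ℕ) : ℤ) ∣ (m : ℤ) * l + k then (1 : ℝ) else 0) -
      1 / ((q * w : ℕ) : ℝ) * (if (q1 : ℤ) ∣ (m : ℤ) * l + k then (1 : ℝ) else 0))

/-- the box sum -/
noncomputable def BX (k : ℤ) (α β : ℕ → ℝ) (S1 Sq Sw Sm Sl : Finset ℕ) : ℝ :=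
  ∑ q1 ∈ S1, ∑ q ∈ Sq, ∑ w ∈ Sw, ∑ m ∈ Sm, ∑ l ∈ Sl, TT k α β q1 q w m l

open Classical in
/-- the normalised weight on a set -/
noncomputable def wt (S : Finset ℕ) (n : ℕ) : ℂ := ((if n ∈ S then gf n / 128 else 0 : ℝ) : ℂ)

lemma wt_norm {S : Finset ℕ} (hS : ∀ n ∈ S, gf n ≤ 128) (n : ℕ) : ‖wt S n‖ ≤ 1 := by
  unfold wt
  rw [Complex.norm_real, Real.norm_eq_abs]
  split_ifs with h
  · rw [abs_of_nonneg (div_nonneg (gf_nonneg n) (by norm_num))]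
    have := hS n h
    rw [div_le_one (by norm_num)]
    exact this
  · simp

open Classical in
/-- restricted coefficients -/
noncomputable def rs (S : Finset ℕ) (α : ℕ → ℝ) (n : ℕ) : ℂ := ((if n ∈ S then α n else 0 : ℝ) : ℂ)

lemma rs_norm {S : Finset ℕ} {α : ℕ → ℝ} (hα : ∀ n, |α n| ≤ 1) (n : ℕ) : ‖rs S α n‖ ≤ 1 := by
  unfold rs
  rw [Complex.norm_real, Real.norm_eq_abs]
  split_ifs with h
  · exact hα n
  · simp

lemma sum_sup {S S' : Finset ℕ} (h : S ⊆ S') (F : ℕ → ℂ) (hF : ∀ n ∈ S', n ∉ S → F n = 0) :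
    ∑ n ∈ S', F n = ∑ n ∈ S, F n := (sum_subset h fun n h1 h2 => hF n h1 h2).symm

lemma sub_ioc {S : Finset ℕ} {X : ℝ} (hX : 0 ≤ X) (h : ∀ n ∈ S, X < n ∧ (n : ℝ) ≤ 2 * X) : S ⊆ Ioc ⌊X⌋₊ ⌊2 * X⌋₊ := by
  intro n hn
  obtain ⟨h1, h2⟩ := h n hn
  rw [mem_Ioc]
  exact ⟨(Nat.floor_lt hX).2 h1, (Nat.le_floor_iff (by linarith)).2 h2⟩

lemma ind_cast {p : Prop} [Decidable p] : ((if p then (1 : ℝ) else 0 : ℝ) : ℂ) = if p then (1 : ℂ) else 0 := by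
  split_ifs <;> simp

open Classical in
/-- the prime type II sum as a real box sum -/
lemma PDS_eq (k : ℤ) (α β : ℕ → ℝ) (Q1 Q P L M D0 R0 : ℝ) (S1 Sq Sw Sm Sl : Finset ℕ) (hQ1 : 0 ≤ Q1) (hM : 0 ≤ M)
    (h1 : ∀ n ∈ S1, Q1 < n ∧ (n : ℝ) ≤ 2 * Q1) (hg : ∀ n ∈ S1, Int.gcd (-k) n = 1)
    (hm : ∀ n ∈ Sm, M < n ∧ (n : ℝ) ≤ 2 * M) :
    (⟨-k, Q1, Q, P, L, M, D0, R0, 7, Sq, Sw, Sl, wt Sq, wt Sw, rs Sl β⟩ : PD).S (wt S1) (rs Sm α) =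
      (((1 / 128) ^ 3 * BX k α β S1 Sq Sw Sm Sl : ℝ) : ℂ) := by
  unfold PD.S
  have e1 : S1 ⊆ (⟨-k, Q1, Q, P, L, M, D0, R0, 7, Sq, Sw, Sl, wt Sq, wt Sw, rs Sl β⟩ : PD).Q1s := by
    intro n hn
    unfold PD.Q1s
    rw [mem_filter]
    exact ⟨sub_ioc hQ1 h1 hn, hg n hn⟩
  have e2 : Sm ⊆ (⟨-k, Q1, Q, P, L, M, D0, R0, 7, Sq, Sw, Sl, wt Sq, wt Sw, rs Sl β⟩ : PD).Ms := sub_ioc hM hm
  rw [sum_sup e1 _ fun n _ hn => by simp [wt, hn]]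
  unfold BX
  rw [mul_sum]
  push_cast
  refine sum_congr rfl fun q1 hq1 => ?_
  rw [sum_sup e2 _ fun n _ hn => by simp [rs, hn]]
  -- right side: bring `m` outside
  have hR : ((1 : ℂ) / 128) ^ 3 * ∑ q ∈ Sq, ∑ w ∈ Sw, ∑ m ∈ Sm, ∑ l ∈ Sl, ((TT k α β q1 q w m l : ℝ) : ℂ) =
      ∑ m ∈ Sm, ∑ q ∈ Sq, ∑ w ∈ Sw, ∑ l ∈ Sl, ((1 : ℂ) / 128) ^ 3 * ((TT k α β q1 q w m l : ℝ) : ℂ) := by
    rw [mul_sum]
    rw [sum_comm (s := Sm)]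
    refine sum_congr rfl fun q _ => ?_
    rw [mul_sum, sum_comm (s := Sm)]
    refine sum_congr rfl fun w _ => ?_
    rw [mul_sum]
    refine sum_congr rfl fun m _ => ?_
    rw [mul_sum]
  rw [hR, mul_sum]
  refine sum_congr rfl fun m hm' => ?_
  unfold PD.I
  rw [sum_filter, sum_product, mul_sum, mul_sum]
  refine sum_congr rfl fun q hq => ?_
  rw [sum_product, mul_sum, mul_sum]
  refine sum_congr rfl fun w hw => ?_
  rw [mul_sum, mul_sum]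
  refine sum_congr rfl fun l hl => ?_
  unfold TT PD.cc
  simp only [wt, rs, hq1, hm', hq, hw, hl, if_true]
  by_cases hd : l ∣ q * w
  · simp [hd]
  · simp only [hd, not_false_eq_true, if_true, if_false, sub_neg_eq_add, Nat.cast_mul]
    split_ifs <;> (push_cast; ring)

open Classical in
/-- the tiny type II sum as a real box sum -/
lemma TDS_eq (k : ℤ) (α β : ℕ → ℝ) (Q P X M D0 R0 : ℝ) (Sq Sw Sm Sl : Finset ℕ) (hM : 0 ≤ M)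
    (hm : ∀ n ∈ Sm, M < n ∧ (n : ℝ) ≤ 2 * M) (hl : ∀ l ∈ Sl, l.Prime) :
    (⟨-k, 1, Q, P, X, M, D0, R0, 7, Sq, Sw, Sl, wt Sq, wt Sw, rs Sl β⟩ : TD).S (rs Sm α) =
      (((1 / 128) ^ 2 * BX k α β {1} Sq Sw Sm Sl : ℝ) : ℂ) := by
  unfold TD.S
  have e2 : Sm ⊆ (⟨-k, 1, Q, P, X, M, D0, R0, 7, Sq, Sw, Sl, wt Sq, wt Sw, rs Sl β⟩ : TD).Ms := sub_ioc hM hm
  rw [sum_sup e2 _ fun n _ hn => by simp [rs, hn]]
  unfold BX
  rw [sum_singleton]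
  push_cast
  have hR : ((1 : ℂ) / 128) ^ 2 * ∑ q ∈ Sq, ∑ w ∈ Sw, ∑ m ∈ Sm, ∑ l ∈ Sl, ((TT k α β 1 q w m l : ℝ) : ℂ) =
      ∑ m ∈ Sm, ∑ q ∈ Sq, ∑ w ∈ Sw, ∑ l ∈ Sl, ((1 : ℂ) / 128) ^ 2 * ((TT k α β 1 q w m l : ℝ) : ℂ) := by
    rw [mul_sum]
    rw [sum_comm (s := Sm)]
    refine sum_congr rfl fun q _ => ?_
    rw [mul_sum, sum_comm (s := Sm)]
    refine sum_congr rfl fun w _ => ?_
    rw [mul_sum]
    refine sum_congr rfl fun m _ => ?_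
    rw [mul_sum]
  rw [hR]
  refine sum_congr rfl fun m hm' => ?_
  unfold TD.I
  rw [sum_filter, sum_product, mul_sum]
  refine sum_congr rfl fun q hq => ?_
  rw [sum_product, mul_sum]
  refine sum_congr rfl fun w hw => ?_
  rw [mul_sum]
  refine sum_congr rfl fun l hl' => ?_
  unfold TT TD.cc
  simp only [wt, rs, hm', hq, hw, hl', if_true]
  by_cases hd : l ∣ q * w
  · have : ¬ Nat.Coprime l (q * w) := fun h => (hl l hl').one_lt.ne' (Nat.Coprime.eq_one_of_dvd h hd)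
    simp [hd, this]
  · have : Nat.Coprime l (q * w) := (Nat.Prime.coprime_iff_not_dvd (hl l hl')).2 hd
    simp only [hd, this, if_true, if_false, sub_neg_eq_add, gf_one, Nat.cast_mul, Nat.cast_one]
    split_ifs <;> (push_cast; ring)

end Pool.Agent.Helper72.APU
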