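import Pool.Agent.Helper72.APU.Vw

/-!
# A', block UP, part 6: one dyadic box, and the assembly
-/

open Filter Topology Finset

set_option autoImplicit false

namespace Pool.Agent.Helper72.APU

open Pool.Agent.AP Pool.Agent.Helper64.Bt Pool.Agent.Helper64.UHs

lemma swap5 (A B C D E : Finset ℕ) (F : ℕ → ℕ → ℕ → ℕ → ℕ → ℝ) :
    ∑ d ∈ D, ∑ e ∈ E, ∑ a ∈ A, ∑ b ∈ B, ∑ c ∈ C, F a b c d e = ∑ a ∈ A, ∑ b ∈ B, ∑ c ∈ C, ∑ d ∈ D, ∑ e ∈ E, F a b c d e := by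
  have h1 : ∑ d ∈ D, ∑ e ∈ E, ∑ a ∈ A, ∑ b ∈ B, ∑ c ∈ C, F a b c d e =
      ∑ x ∈ D ×ˢ E, ∑ y ∈ A ×ˢ (B ×ˢ C), F y.1 y.2.1 y.2.2 x.1 x.2 := by
    rw [sum_product]
    refine sum_congr rfl fun d _ => sum_congr rfl fun e _ => ?_
    rw [sum_product]
    refine sum_congr rfl fun a _ => ?_
    rw [sum_product]
  have h2 : ∑ a ∈ A, ∑ b ∈ B, ∑ c ∈ C, ∑ d ∈ D, ∑ e ∈ E, F a b c d e =
      ∑ y ∈ A ×ˢ (B ×ˢ C), ∑ x ∈ D ×ˢ E, F y.1 y.2.1 y.2.2 x.1 x.2 := by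
    rw [sum_product]
    refine sum_congr rfl fun a _ => ?_
    rw [sum_product]
    refine sum_congr rfl fun b _ => sum_congr rfl fun c _ => ?_
    rw [sum_product]
  rw [h1, h2, sum_comm]

/-- the structured sum is the box sum and the part `l ∣ u₂` -/
lemma VV_eq {T : ℝ} (hT : 1 < T) (p : ℕ → Bool) (k : ℤ) (α β : ℕ → ℝ) (Sm Sl : Finset ℕ) :
    ∑ m ∈ Sm, ∑ l ∈ Sl, α m * β l * VV (JA T p) (IW T :: JB T p) (m * l + k) =
      BX k α β (PU (JA T p)) (PU (JB T p)) (IW T) Sm Sl +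
        ∑ m ∈ Sm, ∑ l ∈ Sl, α m * β l * DI (JA T p) (IW T :: JB T p) l (m * l + k) := by
  have key : ∀ m l : ℕ, α m * β l * VV (JA T p) (IW T :: JB T p) (m * l + k) =
      ∑ q1 ∈ PU (JA T p), ∑ q ∈ PU (JB T p), ∑ w ∈ IW T, TT k α β q1 q w m l +
        α m * β l * DI (JA T p) (IW T :: JB T p) l (m * l + k) := by
    intro m l
    unfold VV DI
    rw [mul_sum, mul_sum, ← sum_add_distrib]
    refine sum_congr rfl fun u₁ _ => ?_
    have g := (J2large hT p).1 (fun u₂ => if l ∣ u₂ then 0 else α m * β l * ((u₁ : ℝ) / Nat.totient u₁ * ((u₂ : ℝ) / Nat.totient u₂) *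
      ((if ((u₁ * u₂ : ℕ) : ℤ) ∣ ((m : ℤ) * l + k) then (1 : ℝ) else 0) - (1 / u₂) * (if (u₁ : ℤ) ∣ ((m : ℤ) * l + k) then (1 : ℝ) else 0))))
    have g2 : ∑ q ∈ PU (JB T p), ∑ w ∈ IW T, TT k α β u₁ q w m l =
        ∑ q ∈ PU (JB T p), ∑ w ∈ IW T, (fun u₂ => if l ∣ u₂ then 0 else α m * β l * ((u₁ : ℝ) / Nat.totient u₁ * ((u₂ : ℝ) / Nat.totient u₂) *
      ((if ((u₁ * u₂ : ℕ) : ℤ) ∣ ((m : ℤ) * l + k) then (1 : ℝ) else 0) - (1 / u₂) * (if (u₁ : ℤ) ∣ ((m : ℤ) * l + k) then (1 : ℝ) else 0)))) (q * w) := by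
      refine sum_congr rfl fun q hq => sum_congr rfl fun w hw => ?_
      have hc := ((J2large hT p).2 q hq w hw).1
      have hg : ((q * w : ℕ) : ℝ) / Nat.totient (q * w) = gf q * gf w := gf_mul hc
      simp only []
      unfold TT
      by_cases hd : l ∣ q * w
      · rw [if_pos hd, if_pos hd]
      · rw [if_neg hd, if_neg hd, hg]
        unfold gf
        ring
    rw [g2, ← g, sum_filter, mul_sum, mul_sum, ← sum_add_distrib]
    refine sum_congr rfl fun u₂ _ => ?_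
    split_ifs <;> ring
  have h1 : ∑ m ∈ Sm, ∑ l ∈ Sl, α m * β l * VV (JA T p) (IW T :: JB T p) (m * l + k) =
      ∑ m ∈ Sm, ∑ l ∈ Sl, (∑ q1 ∈ PU (JA T p), ∑ q ∈ PU (JB T p), ∑ w ∈ IW T, TT k α β q1 q w m l +
        α m * β l * DI (JA T p) (IW T :: JB T p) l (m * l + k)) :=
    sum_congr rfl fun m _ => sum_congr rfl fun l _ => key m l
  rw [h1]
  have h2 : ∀ m ∈ Sm, ∑ l ∈ Sl, (∑ q1 ∈ PU (JA T p), ∑ q ∈ PU (JB T p), ∑ w ∈ IW T, TT k α β q1 q w m l +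
        α m * β l * DI (JA T p) (IW T :: JB T p) l (m * l + k)) =
      ∑ l ∈ Sl, ∑ q1 ∈ PU (JA T p), ∑ q ∈ PU (JB T p), ∑ w ∈ IW T, TT k α β q1 q w m l +
      ∑ l ∈ Sl, α m * β l * DI (JA T p) (IW T :: JB T p) l (m * l + k) := fun m _ => sum_add_distrib
  rw [sum_congr rfl h2, sum_add_distrib]
  congr 1
  unfold BX
  exact swap5 (PU (JA T p)) (PU (JB T p)) (IW T) Sm Sl (fun a b c d e => TT k α β a b c d e)

/-- the selection: some first factor gives the structured bound -/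
lemma sel_box {T : ℝ} (hB : Big T) {k : ℤ} (hk : k ≠ 0) (hkT : |(k : ℝ)| ≤ T ^ (1 / 1000000 : ℝ)) {α β : ℕ → ℝ}
    (hα : ∀ m, |α m| ≤ 1) (hβ : ∀ l, |β l| ≤ 1) {X Y : ℝ} (hX : 0 ≤ X) (h1 : T ^ (1 - 1 / 1000000 : ℝ) ≤ X * Y)
    (h2 : X * Y ≤ T ^ (1 + 1 / 1000000 : ℝ)) (hY1 : T ^ (1 / 2000 : ℝ) / 2 ≤ Y) (hY2 : Y ≤ T ^ (405 / 1000 : ℝ))
    {Sm Sl : Finset ℕ} (hm : ∀ m ∈ Sm, X < m ∧ (m : ℝ) ≤ 2 * X) (hl : ∀ l ∈ Sl, l.Prime ∧ Y < l ∧ (l : ℝ) ≤ 2 * Y) :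
    ∃ p : ℕ → Bool, |BX k α β (PU (JA T p)) (PU (JB T p)) (IW T) Sm Sl| ≤
      (NN T : ℝ) ^ 3 * (128 ^ 3 * T ^ (1 - 1 / 1000000 : ℝ)) := by
  have hT := hB.one
  have hT0 : 0 < T := by linarith
  rcases le_or_gt Y (T ^ (131 / 10000 : ℝ)) with hY | hY
  · exact ⟨pz, boxS hB hk hkT hα hβ hX h1 h2 hY1 hY hm hl⟩
  have hlog : 0 < Real.log T := Real.log_pos hT
  have hY0 : 0 < Y := lt_of_le_of_lt (by positivity) hY
  set y := Real.log Y / Real.log T with hy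
  have hYy : Y = T ^ y := by
    rw [Real.rpow_def_of_pos hT0, hy, mul_div_cancel₀ _ hlog.ne', Real.exp_log hY0]
  have hy1 : 131 / 10000 < y := by
    rw [hYy] at hY
    exact (Real.rpow_lt_rpow_left_iff hT).1 hY
  have hy2 : y ≤ 405 / 1000 := by
    rw [hYy] at hY2
    exact (Real.rpow_le_rpow_left_iff hT).1 hY2
  set s := ⌊100 * (y - 11 / 10000)⌋₊ with hs
  have hs1 : (s : ℝ) ≤ 100 * (y - 11 / 10000) := Nat.floor_le (by linarith)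
  have hs2 : 100 * (y - 11 / 10000) < s + 1 := Nat.lt_floor_add_one _
  have hs3 : 1 ≤ s := Nat.le_floor (by push_cast; linarith)
  have hs4 : s ≤ 40 := by
    have : s < 41 := by
      rw [hs, Nat.floor_lt (by linarith)]
      push_cast
      linarith
    omega
  obtain ⟨p, hp⟩ := sel_ex s hs4
  refine ⟨p, boxP hB hk hkT hα hβ hp hs3 hs4 hX h1 h2 (hY2.trans (rp hT (by norm_num))) ?_ ?_ hm hl⟩
  · rw [hYy]
    exact rp hT (by linarith)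
  · rw [hYy]
    exact rp hT (by linarith)

lemma card_le {S : Finset ℕ} {X : ℝ} (hX : 0 ≤ X) (h : ∀ n ∈ S, X < n ∧ (n : ℝ) ≤ 2 * X) : (S.card : ℝ) ≤ 2 * X := by
  have h1 := card_le_card (sub_ioc hX h)
  rw [Nat.card_Ioc] at h1
  have h2 : (S.card : ℝ) ≤ ⌊2 * X⌋₊ := by exact_mod_cast h1.trans (Nat.sub_le _ _)
  exact h2.trans (Nat.floor_le (by linarith))

/-- the bound for one box -/
noncomputable def BB (T : ℝ) : ℝ := 2 ^ 28 * (1 + Real.log T) ^ 3 * T ^ (1 - 1 / 1000000 + 1 / 100000000 : ℝ)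

lemma abs_sum2_le {Sm Sl : Finset ℕ} {f : ℕ → ℕ → ℝ} {E : ℝ} (h : ∀ m ∈ Sm, ∀ l ∈ Sl, |f m l| ≤ E) :
    |∑ m ∈ Sm, ∑ l ∈ Sl, f m l| ≤ Sm.card * Sl.card * E := by
  calc |∑ m ∈ Sm, ∑ l ∈ Sl, f m l| ≤ ∑ m ∈ Sm, ∑ l ∈ Sl, |f m l| :=
        (abs_sum_le_sum_abs _ _).trans (sum_le_sum fun m _ => abs_sum_le_sum_abs _ _)
    _ ≤ ∑ m ∈ Sm, ∑ l ∈ Sl, E := sum_le_sum fun m hm => sum_le_sum fun l hl => h m hm l hl
    _ = _ := by simp only [sum_const, nsmul_eq_mul]; ring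

lemma n_facts {T : ℝ} (hB : Big T) {k : ℤ} (hk : k ≠ 0) (hkT : |(k : ℝ)| ≤ T ^ (1 / 1000000 : ℝ)) {M L m l : ℕ}
    (hML : (M : ℝ) * L ≤ T ^ (1 + 1 / 1000000 : ℝ)) (hm : m ≤ M) (hl : l ≤ L) (hlT : T ^ (1 / 2000 : ℝ) ≤ l) :
    ¬ (l : ℤ) ∣ (m : ℤ) * l + k ∧ (m : ℤ) * l + k ≠ 0 ∧ |(((m : ℤ) * l + k : ℤ) : ℝ)| ≤ T ^ 2 := by
  have hT := hB.one
  have hT0 : 0 < T := by linarith
  have h1 : ¬ (l : ℤ) ∣ (m : ℤ) * l + k := by
    intro h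
    have h2 : (l : ℤ) ∣ k := (dvd_add_right (Dvd.intro_left (m : ℤ) rfl)).1 h
    have h3 : (l : ℤ) ≤ |k| := Int.le_of_dvd (abs_pos.2 hk) ((dvd_abs _ _).2 h2)
    have h4 : (l : ℝ) ≤ |(k : ℝ)| := by
      have : ((l : ℤ) : ℝ) ≤ ((|k| : ℤ) : ℝ) := by exact_mod_cast h3
      simpa using this
    have h5 : T ^ (1 / 1000000 : ℝ) < T ^ (1 / 2000 : ℝ) := Real.rpow_lt_rpow_of_exponent_lt hT (by norm_num)
    linarith
  refine ⟨h1, fun h => h1 (h ▸ dvd_zero _), ?_⟩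
  push_cast
  have h6 : (m : ℝ) * l ≤ T ^ (1 + 1 / 1000000 : ℝ) := by
    refine le_trans ?_ hML
    gcongr
  have h7 := two_le hB
  calc |(m : ℝ) * l + k| ≤ |(m : ℝ) * l| + |(k : ℝ)| := abs_add_le _ _
    _ ≤ T ^ (1 + 1 / 1000000 : ℝ) + T ^ (1 / 1000000 : ℝ) := by
        rw [abs_of_nonneg (by positivity)]
        linarith
    _ ≤ T ^ (1 + 1 / 1000000 : ℝ) + T ^ (1 + 1 / 1000000 : ℝ) := by
        have := rp hT (show (1 / 1000000 : ℝ) ≤ 1 + 1 / 1000000 by norm_num)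
        linarith
    _ = 2 * T ^ (1 + 1 / 1000000 : ℝ) := by ring
    _ ≤ T ^ (1 / 100000000 : ℝ) * T ^ (1 + 1 / 1000000 : ℝ) := by gcongr
    _ = T ^ (1 / 100000000 + (1 + 1 / 1000000) : ℝ) := by rw [← Real.rpow_add hT0]
    _ ≤ T ^ (2 : ℝ) := rp hT (by norm_num)
    _ = T ^ 2 := Real.rpow_two T

/-- one dyadic box in `m, l` -/
lemma box_all {T : ℝ} (hB : Big T) {k : ℤ} (hk : k ≠ 0) (hkT : |(k : ℝ)| ≤ T ^ (1 / 1000000 : ℝ)) {M L M₀ L₀ : ℕ}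
    (hM : M₀ ≤ M) (hL : L₀ ≤ L) (hML : (M : ℝ) * L ≤ T ^ (1 + 1 / 1000000 : ℝ)) {α β : ℕ → ℝ}
    (hα : ∀ m, |α m| ≤ 1) (hβ : ∀ l, |β l| ≤ 1)
    (hβs : ∀ l, β l ≠ 0 → l.Prime ∧ T ^ (1 / 2000 : ℝ) ≤ l ∧ (l : ℝ) ≤ T ^ (405 / 1000 : ℝ)) (i j : ℕ) :
    |∑ m ∈ (Ioc M₀ M).filter (fun m => Nat.log 2 m = i), ∑ l ∈ ((Ioc L₀ L).filter (fun l => β l ≠ 0)).filter
      (fun l => Nat.log 2 l = j), α m * β l * UU (IF T) (m * l + k)| ≤ BB T := by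
  have hT := hB.one
  have hT0 : 0 < T := by linarith
  have hlog : 0 < Real.log T := Real.log_pos hT
  set Λ := 1 + Real.log T with hΛ
  have hΛ1 : 1 ≤ Λ := by rw [hΛ]; linarith
  have hBB0 : 0 ≤ BB T := by unfold BB; positivity
  set Sm := (Ioc M₀ M).filter (fun m => Nat.log 2 m = i) with hSm
  set Sl := ((Ioc L₀ L).filter (fun l => β l ≠ 0)).filter (fun l => Nat.log 2 l = j) with hSl
  rcases Sm.eq_empty_or_nonempty with he | ⟨m₁, hm₁⟩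
  · rw [he]; simpa using hBB0
  rcases Sl.eq_empty_or_nonempty with he | ⟨l₁, hl₁⟩
  · rw [he]; simpa using hBB0
  have fm : ∀ m ∈ Sm, M₀ < m ∧ m ≤ M ∧ dyX i < m ∧ (m : ℝ) ≤ 2 * dyX i := fun m hm => by
    obtain ⟨ha, hb⟩ := mem_filter.1 hm
    obtain ⟨hc, hd⟩ := mem_Ioc.1 ha
    obtain ⟨he, hf⟩ := dyX_spec (by omega) hb
    exact ⟨hc, hd, he, hf⟩
  have fl : ∀ l ∈ Sl, l ≤ L ∧ l.Prime ∧ T ^ (1 / 2000 : ℝ) ≤ l ∧ (l : ℝ) ≤ T ^ (405 / 1000 : ℝ) ∧ dyX j < l ∧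
      (l : ℝ) ≤ 2 * dyX j := fun l hl => by
    obtain ⟨ha, hb⟩ := mem_filter.1 hl
    obtain ⟨hc, hd⟩ := mem_filter.1 ha
    obtain ⟨he, hf⟩ := mem_Ioc.1 hc
    obtain ⟨hg, hi⟩ := dyX_spec (by omega) hb
    obtain ⟨h1, h2, h3⟩ := hβs l hd
    exact ⟨hf, h1, h2, h3, hg, hi⟩
  obtain ⟨-, m1, m2, m3⟩ := fm m₁ hm₁
  obtain ⟨l1, l2, l3, l4, l5, l6⟩ := fl l₁ hl₁
  have pX := dyX_pos i
  have pY := dyX_pos j
  set X := dyX i with hX
  set Y := dyX j with hY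
  have hXY : X * Y ≤ T ^ (1 + 1 / 1000000 : ℝ) := by
    refine le_trans ?_ hML
    have h1 : X ≤ M := m2.le.trans (by exact_mod_cast m1)
    have h2 : Y ≤ L := l5.le.trans (by exact_mod_cast l1)
    exact mul_le_mul h1 h2 pY.le (by positivity)
  have cm : (Sm.card : ℝ) ≤ 2 * X := card_le pX.le fun m hm => (fm m hm).2.2
  have cl : (Sl.card : ℝ) ≤ 2 * Y := card_le pY.le fun l hl => (fl l hl).2.2.2.2
  have cml : (Sm.card : ℝ) * Sl.card ≤ 4 * (X * Y) := by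
    calc (Sm.card : ℝ) * Sl.card ≤ (2 * X) * (2 * Y) := mul_le_mul cm cl (by positivity) (by positivity)
      _ = _ := by ring
  have nf : ∀ m ∈ Sm, ∀ l ∈ Sl, ¬ (l : ℤ) ∣ (m : ℤ) * l + k ∧ (m : ℤ) * l + k ≠ 0 ∧
      |(((m : ℤ) * l + k : ℤ) : ℝ)| ≤ T ^ 2 := fun m hm l hl =>
    n_facts hB hk hkT hML (fm m hm).2.1 (fl l hl).1 (fl l hl).2.2.1
  have hab : ∀ m l, |α m * β l| ≤ 1 := fun m l => by
    rw [abs_mul]; exact mul_le_one₀ (hα m) (abs_nonneg _) (hβ l)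
  rcases lt_or_ge (X * Y) (T ^ (1 - 1 / 1000000 : ℝ)) with hs | hbig
  · -- a small box
    have h1 : |∑ m ∈ Sm, ∑ l ∈ Sl, α m * β l * UU (IF T) (m * l + k)| ≤ Sm.card * Sl.card * T ^ (1 / 100000000 : ℝ) := by
      refine abs_sum2_le fun m hm l hl => ?_
      rw [abs_mul]
      obtain ⟨-, h2, h3⟩ := nf m hm l hl
      calc |α m * β l| * |UU (IF T) (m * l + k)| ≤ 1 * T ^ (1 / 100000000 : ℝ) :=
            mul_le_mul (hab m l) (hB.ubd _ (List.Sublist.refl _) _ h2 h3) (abs_nonneg _) (by norm_num)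
        _ = _ := one_mul _
    refine h1.trans ?_
    calc (Sm.card : ℝ) * Sl.card * T ^ (1 / 100000000 : ℝ) ≤ 4 * T ^ (1 - 1 / 1000000 : ℝ) * T ^ (1 / 100000000 : ℝ) :=
          mul_le_mul_of_nonneg_right (by linarith) (by positivity)
      _ = 4 * T ^ (1 - 1 / 1000000 + 1 / 100000000 : ℝ) := by rw [mul_assoc, ← Real.rpow_add hT0]
      _ ≤ BB T := by
          unfold BB
          rw [← hΛ]
          gcongr
          have : (1 : ℝ) ≤ Λ ^ 3 := one_le_pow₀ hΛ1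
          linarith
  -- a large box
  obtain ⟨p, hp⟩ := sel_box hB hk hkT hα hβ pX.le hbig hXY (by linarith) (l5.le.trans l4)
    (fun m hm => (fm m hm).2.2) (fun l hl => ⟨(fl l hl).2.1, (fl l hl).2.2.2.2⟩) (Sm := Sm) (Sl := Sl)
  set C2 := ∑ u₂ ∈ PU (IW T :: JB T p), 1 / (Nat.totient u₂ : ℝ) with hC2
  have hC20 : 0 ≤ C2 := sum_nonneg fun u _ => by positivity
  have hC21 : C2 ≤ 128 ^ 2 * Λ := by
    have := tot2_le hB p (l := 1) one_pos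
    rw [filter_true_of_mem (fun u _ => one_dvd u), Nat.cast_one, div_one] at this
    exact this
  have hsplit : ∀ n : ℤ, UU (IF T) n = VV (JA T p) (IW T :: JB T p) n + C2 * UU (JA T p) n :=
    UU_split (fun hp h1 h2 g => PU_split hp h1 h2 g) (perm_sel T p) (IFp hT) (BPS.IF_disj hT)
  have e1 : ∑ m ∈ Sm, ∑ l ∈ Sl, α m * β l * UU (IF T) (m * l + k) =
      (BX k α β (PU (JA T p)) (PU (JB T p)) (IW T) Sm Sl +
        ∑ m ∈ Sm, ∑ l ∈ Sl, α m * β l * DI (JA T p) (IW T :: JB T p) l (m * l + k)) +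
        C2 * ∑ m ∈ Sm, ∑ l ∈ Sl, α m * β l * UU (JA T p) (m * l + k) := by
    rw [← VV_eq hT, mul_sum, ← sum_add_distrib]
    refine sum_congr rfl fun m _ => ?_
    rw [mul_sum, ← sum_add_distrib]
    refine sum_congr rfl fun l _ => ?_
    rw [hsplit]
    ring
  -- the part `l ∣ u₂`
  have h128 : 128 * Λ ≤ T ^ (1 / 100000000 : ℝ) := by
    refine le_trans ?_ hB.lg
    rw [← hΛ]
    have : Λ ≤ Λ ^ 5 := le_self_pow₀ hΛ1 (by norm_num)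
    nlinarith
  have e2 : |∑ m ∈ Sm, ∑ l ∈ Sl, α m * β l * DI (JA T p) (IW T :: JB T p) l (m * l + k)| ≤
      2 ^ 17 * Λ * T ^ (1 - 1 / 1000000 : ℝ) := by
    have h1 : |∑ m ∈ Sm, ∑ l ∈ Sl, α m * β l * DI (JA T p) (IW T :: JB T p) l (m * l + k)| ≤
        Sm.card * Sl.card * ((2 * T ^ (1 / 100000000 : ℝ)) * (128 ^ 2 * (Λ * T ^ (-(1 / 2000) : ℝ)))) := by
      refine abs_sum2_le fun m hm l hl => ?_
      rw [abs_mul]
      obtain ⟨h0, h2, h3⟩ := nf m hm l hl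
      have h4 := DI_le hB p (fl l hl).2.1 h2 h3 h0
      have h5 : (Λ / l : ℝ) ≤ Λ * T ^ (-(1 / 2000) : ℝ) := by
        rw [div_eq_mul_inv, Real.rpow_neg hT0.le]
        gcongr
        exact (fl l hl).2.2.1
      have h6 : |DI (JA T p) (IW T :: JB T p) l (m * l + k)| ≤
          (2 * T ^ (1 / 100000000 : ℝ)) * (128 ^ 2 * (Λ * T ^ (-(1 / 2000) : ℝ))) := by
        refine h4.trans ?_
        rw [← hΛ]
        refine mul_le_mul (by linarith) (by gcongr) (by positivity) (by positivity)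
      calc |α m * β l| * |DI (JA T p) (IW T :: JB T p) l (m * l + k)| ≤
            1 * ((2 * T ^ (1 / 100000000 : ℝ)) * (128 ^ 2 * (Λ * T ^ (-(1 / 2000) : ℝ)))) :=
            mul_le_mul (hab m l) h6 (abs_nonneg _) (by norm_num)
        _ = _ := one_mul _
    refine h1.trans ?_
    calc (Sm.card : ℝ) * Sl.card * ((2 * T ^ (1 / 100000000 : ℝ)) * (128 ^ 2 * (Λ * T ^ (-(1 / 2000) : ℝ)))) ≤
          (4 * T ^ (1 + 1 / 1000000 : ℝ)) * ((2 * T ^ (1 / 100000000 : ℝ)) * (128 ^ 2 * (Λ * T ^ (-(1 / 2000) : ℝ)))) :=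
          mul_le_mul_of_nonneg_right (by linarith) (by positivity)
      _ = 2 ^ 17 * Λ * (T ^ (1 + 1 / 1000000 : ℝ) * T ^ (1 / 100000000 : ℝ) * T ^ (-(1 / 2000) : ℝ)) := by ring
      _ = 2 ^ 17 * Λ * T ^ (1 + 1 / 1000000 + 1 / 100000000 + -(1 / 2000) : ℝ) := by
          rw [← Real.rpow_add hT0, ← Real.rpow_add hT0]
      _ ≤ _ := by
          gcongr
          exact hT.le
          norm_num
  -- the part with the first factor
  have e3 : |∑ m ∈ Sm, ∑ l ∈ Sl, α m * β l * UU (JA T p) (m * l + k)| ≤ T ^ (1 - 1 / 1000000 : ℝ) := by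
    have h1 : ∑ m ∈ Sm, ∑ l ∈ Sl, α m * β l * UU (JA T p) (m * l + k) =
        ∑ m ∈ Ioc M₀ M, ∑ l ∈ Ioc L₀ L, (if Nat.log 2 m = i then α m else 0) * (if Nat.log 2 l = j then β l else 0) *
          UU (JA T p) (m * l + k) := by
      rw [hSm, sum_filter]
      refine sum_congr rfl fun m _ => ?_
      split_ifs with hmi
      · rw [hSl, filter_filter, sum_filter]
        refine sum_congr rfl fun l _ => ?_
        by_cases hb : β l = 0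
        · simp [hb]
        · by_cases hj : Nat.log 2 l = j <;> simp [hb, hj]
      · simp
    rw [h1]
    have h2 := hB.b1 (JA T p) (JA_sub T p) (JA_ne T p) k M L M₀ L₀ (fun m => if Nat.log 2 m = i then α m else 0)
      (fun l => if Nat.log 2 l = j then β l else 0) hk hkT hM hL ?_ ?_ hML ?_ ?_
    · exact h2.trans (rp hT (by norm_num))
    · -- `T^.0004 ≤ M`
      have h3 : X ≤ M := m2.le.trans (by exact_mod_cast m1)
      have h4 : Y ≤ T ^ (405 / 1000 : ℝ) := l5.le.trans l4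
      have h5 : T ^ (1 - 1 / 1000000 : ℝ) ≤ X * T ^ (405 / 1000 : ℝ) := hbig.trans (by gcongr)
      have h6 : T ^ (4 / 10000 : ℝ) * T ^ (405 / 1000 : ℝ) ≤ X * T ^ (405 / 1000 : ℝ) := by
        rw [← Real.rpow_add hT0]
        exact (rp hT (by norm_num)).trans h5
      exact (le_of_mul_le_mul_right h6 (by positivity)).trans h3
    · calc T ^ (4 / 10000 : ℝ) ≤ T ^ (1 / 2000 : ℝ) := rp hT (by norm_num)
        _ ≤ l₁ := l3
        _ ≤ L := by exact_mod_cast l1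
    · intro m
      split_ifs
      · exact hα m
      · simp
    · intro l
      split_ifs
      · exact hβ l
      · simp
  have hN := NN_le hT
  rw [← hΛ] at hN
  have e4 : |BX k α β (PU (JA T p)) (PU (JB T p)) (IW T) Sm Sl| ≤ 2 ^ 27 * Λ ^ 3 * T ^ (1 - 1 / 1000000 : ℝ) := by
    refine hp.trans ?_
    calc (NN T : ℝ) ^ 3 * (128 ^ 3 * T ^ (1 - 1 / 1000000 : ℝ)) ≤ (4 * Λ) ^ 3 * (128 ^ 3 * T ^ (1 - 1 / 1000000 : ℝ)) := by
          gcongr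
      _ = _ := by ring
  rw [e1]
  have hTp : 0 ≤ T ^ (1 - 1 / 1000000 : ℝ) := by positivity
  have e5 : |C2 * ∑ m ∈ Sm, ∑ l ∈ Sl, α m * β l * UU (JA T p) (m * l + k)| ≤ 128 ^ 2 * Λ * T ^ (1 - 1 / 1000000 : ℝ) := by
    rw [abs_mul, abs_of_nonneg hC20]
    exact mul_le_mul hC21 e3 (abs_nonneg _) (by positivity)
  have e6 : Λ ≤ Λ ^ 3 := le_self_pow₀ hΛ1 (by norm_num)
  calc |(BX k α β (PU (JA T p)) (PU (JB T p)) (IW T) Sm Sl +
        ∑ m ∈ Sm, ∑ l ∈ Sl, α m * β l * DI (JA T p) (IW T :: JB T p) l (m * l + k)) +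
        C2 * ∑ m ∈ Sm, ∑ l ∈ Sl, α m * β l * UU (JA T p) (m * l + k)| ≤
      (2 ^ 27 * Λ ^ 3 * T ^ (1 - 1 / 1000000 : ℝ) + 2 ^ 17 * Λ * T ^ (1 - 1 / 1000000 : ℝ)) +
        128 ^ 2 * Λ * T ^ (1 - 1 / 1000000 : ℝ) :=
        (abs_add_le _ _).trans (add_le_add ((abs_add_le _ _).trans (add_le_add e4 e2)) e5)
    _ ≤ (2 ^ 27 * Λ ^ 3 + 2 ^ 17 * Λ ^ 3 + 128 ^ 2 * Λ ^ 3) * T ^ (1 - 1 / 1000000 : ℝ) := by
        rw [add_mul, add_mul]
        gcongr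
    _ ≤ (2 ^ 28 * Λ ^ 3) * T ^ (1 - 1 / 1000000 : ℝ) := by
        gcongr
        nlinarith [show 0 ≤ Λ ^ 3 by positivity]
    _ ≤ BB T := by
        unfold BB
        rw [← hΛ]
        gcongr
        · exact hT.le
        · norm_num

/-- the bound at a large `T` -/
theorem UP_at {T : ℝ} (hB : Big T) (J : List (Finset ℕ)) (hJ : J.Sublist (IF T)) (k : ℤ) (M L M₀ L₀ : ℕ) (α β : ℕ → ℝ)
    (hk : k ≠ 0) (hkT : |(k : ℝ)| ≤ T ^ (1 / 1000000 : ℝ)) (hM : M₀ ≤ M) (hL : L₀ ≤ L)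
    (hML : (M : ℝ) * L ≤ T ^ (1 + 1 / 1000000 : ℝ)) (hα : ∀ m, |α m| ≤ 1) (hβ : ∀ l, |β l| ≤ 1)
    (hβs : ∀ l, β l ≠ 0 → l.Prime ∧ T ^ (1 / 2000 : ℝ) ≤ l ∧ (l : ℝ) ≤ T ^ (405 / 1000 : ℝ)) :
    |∑ m ∈ Ioc M₀ M, ∑ l ∈ Ioc L₀ L, α m * β l * UU J (m * l + k)| ≤ T ^ (1 - 9 / 10000000 : ℝ) := by
  have hT := hB.one
  have hT0 : 0 < T := by linarith
  have hlog : 0 < Real.log T := Real.log_pos hT
  have hab : ∀ m l, |α m * β l| ≤ 1 := fun m l => by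
    rw [abs_mul]; exact mul_le_one₀ (hα m) (abs_nonneg _) (hβ l)
  have hred : ∑ m ∈ Ioc M₀ M, ∑ l ∈ Ioc L₀ L, α m * β l * UU J (m * l + k) =
      ∑ m ∈ Ioc M₀ M, ∑ l ∈ (Ioc L₀ L).filter (fun l => β l ≠ 0), α m * β l * UU J (m * l + k) := by
    refine sum_congr rfl fun m _ => ?_
    rw [sum_filter]
    refine sum_congr rfl fun l _ => ?_
    by_cases hb : β l = 0 <;> simp [hb]
  rcases le_or_gt (T ^ (4 / 10000 : ℝ)) L with hL4 | hL4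
  swap
  · have : ∀ l ∈ Ioc L₀ L, β l = 0 := by
      intro l hl
      by_contra hb
      have h1 := (hβs l hb).2.1
      have h2 : (l : ℝ) ≤ L := by exact_mod_cast (mem_Ioc.1 hl).2
      have h3 := rp hT (show (4 / 10000 : ℝ) ≤ 1 / 2000 by norm_num)
      linarith
    have h0 : ∑ m ∈ Ioc M₀ M, ∑ l ∈ Ioc L₀ L, α m * β l * UU J (m * l + k) = 0 := by
      refine sum_eq_zero fun m _ => sum_eq_zero fun l hl => ?_
      rw [this l hl]; ring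
    rw [h0, abs_zero]
    positivity
  rcases le_or_gt (T ^ (4 / 10000 : ℝ)) M with hM4 | hM4
  swap
  · rw [hred]
    have h1 : |∑ m ∈ Ioc M₀ M, ∑ l ∈ (Ioc L₀ L).filter (fun l => β l ≠ 0), α m * β l * UU J (m * l + k)| ≤
        (Ioc M₀ M).card * ((Ioc L₀ L).filter (fun l => β l ≠ 0)).card * T ^ (1 / 100000000 : ℝ) := by
      refine abs_sum2_le fun m hm l hl => ?_
      obtain ⟨hl1, hl2⟩ := mem_filter.1 hl
      obtain ⟨-, h2, h3⟩ := n_facts hB hk hkT hML (mem_Ioc.1 hm).2 (mem_Ioc.1 hl1).2 (hβs l hl2).2.1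
      rw [abs_mul]
      calc |α m * β l| * |UU J (m * l + k)| ≤ 1 * T ^ (1 / 100000000 : ℝ) :=
            mul_le_mul (hab m l) (hB.ubd _ hJ _ h2 h3) (abs_nonneg _) (by norm_num)
        _ = _ := one_mul _
    have h2 : ((Ioc M₀ M).card : ℝ) ≤ T ^ (4 / 10000 : ℝ) := by
      rw [Nat.card_Ioc]
      refine le_trans ?_ hM4.le
      exact_mod_cast Nat.sub_le _ _
    have h3 : (((Ioc L₀ L).filter (fun l => β l ≠ 0)).card : ℝ) ≤ T ^ (405 / 1000 : ℝ) := by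
      have h4 : (Ioc L₀ L).filter (fun l => β l ≠ 0) ⊆ Ioc 0 ⌊T ^ (405 / 1000 : ℝ)⌋₊ := by
        intro l hl
        obtain ⟨hl1, hl2⟩ := mem_filter.1 hl
        rw [mem_Ioc]
        exact ⟨by have := (mem_Ioc.1 hl1).1; omega, Nat.le_floor (hβs l hl2).2.2⟩
      have h5 := card_le_card h4
      rw [Nat.card_Ioc, Nat.sub_zero] at h5
      exact le_trans (by exact_mod_cast h5) (Nat.floor_le (by positivity))
    refine h1.trans ?_
    calc ((Ioc M₀ M).card : ℝ) * ((Ioc L₀ L).filter (fun l => β l ≠ 0)).card * T ^ (1 / 100000000 : ℝ) ≤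
          T ^ (4 / 10000 : ℝ) * T ^ (405 / 1000 : ℝ) * T ^ (1 / 100000000 : ℝ) := by gcongr
      _ = T ^ (4 / 10000 + 405 / 1000 + 1 / 100000000 : ℝ) := by rw [← Real.rpow_add hT0, ← Real.rpow_add hT0]
      _ ≤ _ := rp hT (by norm_num)
  by_cases hJF : J = IF T
  swap
  · exact (hB.b1 J hJ hJF k M L M₀ L₀ α β hk hkT hM hL hM4 hL4 hML hα hβ).trans (rp hT (by norm_num))
  subst hJF
  rw [hred]
  have hN := NN_le hT
  have hMT : (M : ℝ) ≤ T ^ 2 := by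
    have h1 : (M : ℝ) * 1 ≤ M * L := by
      gcongr
      exact (Real.one_le_rpow hT.le (by norm_num)).trans hL4
    rw [mul_one] at h1
    refine h1.trans (hML.trans ?_)
    rw [← Real.rpow_natCast]
    exact rp hT (by norm_num)
  have h2 : |∑ m ∈ Ioc M₀ M, ∑ l ∈ (Ioc L₀ L).filter (fun l => β l ≠ 0), α m * β l * UU (IF T) (m * l + k)| ≤
      (NN T : ℝ) ^ 2 * BB T := by
    refine dy2 ?_ ?_ _ _ fun i j => box_all hB hk hkT hM hL hML hα hβ hβs i j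
    · intro m hm
      refine log_lt hT (le_trans ?_ hMT)
      exact_mod_cast (mem_Ioc.1 hm).2
    · intro l hl
      refine log_lt hT (le_trans (hβs l (mem_filter.1 hl).2).2.2 ?_)
      rw [← Real.rpow_natCast]
      exact rp hT (by norm_num)
  refine h2.trans ?_
  set Λ := 1 + Real.log T with hΛ
  have hΛ0 : 0 ≤ Λ := by rw [hΛ]; linarith
  have hlg := hB.lg
  rw [← hΛ] at hlg
  calc (NN T : ℝ) ^ 2 * BB T ≤ (4 * Λ) ^ 2 * BB T := by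
        have : 0 ≤ BB T := by unfold BB; positivity
        gcongr
    _ = (2 ^ 32 * Λ ^ 5) * T ^ (1 - 1 / 1000000 + 1 / 100000000 : ℝ) := by
        unfold BB
        rw [← hΛ]
        ring
    _ ≤ T ^ (1 / 100000000 : ℝ) * T ^ (1 - 1 / 1000000 + 1 / 100000000 : ℝ) := by
        gcongr
        refine le_trans ?_ hlg
        nlinarith [show 0 ≤ Λ ^ 5 by positivity]
    _ = T ^ (1 / 100000000 + (1 - 1 / 1000000 + 1 / 100000000) : ℝ) := by rw [← Real.rpow_add hT0]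
    _ ≤ _ := rp hT (by norm_num)

end Pool.Agent.Helper72.APU
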