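import Pool.Agent.Helper64.AP.Bt
import Pool.Agent.Helper56.AP.PUF
import Pool.Agent.Helper72.APU.Bx

/-!
# A', block UP, part 3: the selection of the first factor
-/

open Filter Topology Finset

set_option autoImplicit false

namespace Pool.Agent.Helper72.APU

open Pool.Agent.AP Pool.Agent.Helper64.Bt Pool.Agent.Helper64.UHs

/-- the numerators of the six exponents -/
def cs : List ℕ := [1, 2, 4, 8, 13, 16]

/-- the intervals of the six exponents -/
noncomputable def fc (T : ℝ) (c : ℕ) : Finset ℕ := IP ((c : ℝ) / 100) (1 / 100000000) T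

lemma IF_eq (T : ℝ) : IF T = [fc T 1, fc T 2, fc T 4] ++ (IW T :: [fc T 8, fc T 13, fc T 16]) := by
  unfold IF IL esF fc IW
  norm_num

/-- the first factor -/
noncomputable def JA (T : ℝ) (p : ℕ → Bool) : List (Finset ℕ) := (cs.filter p).map (fc T)

/-- the complement -/
noncomputable def JB (T : ℝ) (p : ℕ → Bool) : List (Finset ℕ) := (cs.filter (fun c => !p c)).map (fc T)

lemma perm_sel (T : ℝ) (p : ℕ → Bool) : (IF T).Perm (JA T p ++ (IW T :: JB T p)) := by
  have h1 : (IF T).Perm (IW T :: cs.map (fc T)) := by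
    rw [IF_eq]
    exact List.perm_middle
  have h2 : (JA T p ++ JB T p).Perm (cs.map (fc T)) := by
    unfold JA JB
    rw [← List.map_append]
    exact (List.filter_append_perm p cs).map _
  exact h1.trans ((h2.symm.cons _).trans List.perm_middle.symm)

lemma cs_sub (T : ℝ) : (cs.map (fc T)).Sublist (IF T) := by
  rw [IF_eq]
  unfold cs
  simp only [List.map_cons, List.map_nil, List.cons_append, List.nil_append]
  exact ((((List.sublist_cons_self _ _).cons_cons _).cons_cons _).cons_cons _)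

lemma JA_sub (T : ℝ) (p : ℕ → Bool) : (JA T p).Sublist (IF T) := (List.filter_sublist.map _).trans (cs_sub T)

lemma JB_sub (T : ℝ) (p : ℕ → Bool) : (JB T p).Sublist (IF T) := (List.filter_sublist.map _).trans (cs_sub T)

lemma IW_sub (T : ℝ) : [IW T].Sublist (IF T) := by
  rw [List.singleton_sublist, IF_eq]
  simp

lemma JA_len (T : ℝ) (p : ℕ → Bool) : (JA T p).length ≤ 6 := by
  unfold JA
  rw [List.length_map]
  exact List.length_filter_le p cs

lemma JB_len (T : ℝ) (p : ℕ → Bool) : (JB T p).length ≤ 6 := by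
  unfold JB
  rw [List.length_map]
  exact List.length_filter_le _ cs

lemma IF_len (T : ℝ) : (IF T).length = 7 := by rw [IF_eq]; rfl

lemma JA_ne (T : ℝ) (p : ℕ → Bool) : JA T p ≠ IF T := by
  intro h
  have h1 := JA_len T p
  rw [h, IF_len] at h1
  omega

lemma map_IL (T : ℝ) (A : List ℕ) : A.map (fc T) = IL (A.map fun c : ℕ => (c : ℝ) / 100) (1 / 100000000) T := by
  unfold IL fc
  rw [List.map_map]
  rfl

lemma sum_map (A : List ℕ) : (A.map fun c : ℕ => (c : ℝ) / 100).sum = (A.sum : ℝ) / 100 := by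
  induction A with
  | nil => simp
  | cons a A ih =>
    rw [List.map_cons, List.sum_cons, List.sum_cons, ih]
    push_cast
    ring

lemma size_cs {T : ℝ} (hT : 1 ≤ T) {A : List ℕ} (hA : A.length ≤ 6) {u : ℕ} (hu : u ∈ PU (A.map (fc T))) :
    T ^ ((A.sum : ℝ) / 100) ≤ (u : ℝ) ∧ (u : ℝ) ≤ T ^ ((A.sum : ℝ) / 100 + 6 / 100000000) := by
  rw [map_IL] at hu
  obtain ⟨h1, h2⟩ := PU_size hT _ u hu
  rw [sum_map] at h1 h2
  refine ⟨h1, h2.trans (Real.rpow_le_rpow_of_exponent_le hT ?_)⟩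
  rw [List.length_map]
  have : (A.length : ℝ) ≤ 6 := by exact_mod_cast hA
  linarith

lemma sum_compl (p : ℕ → Bool) : (cs.filter p).sum + (cs.filter (fun c => !p c)).sum = 44 := by
  rw [← List.sum_append, (List.filter_append_perm p cs).sum_eq]
  rfl

lemma size_JA {T : ℝ} (hT : 1 ≤ T) {p : ℕ → Bool} {s : ℕ} (hs : (cs.filter p).sum = s) {u : ℕ} (hu : u ∈ PU (JA T p)) :
    T ^ ((s : ℝ) / 100) ≤ (u : ℝ) ∧ (u : ℝ) ≤ T ^ ((s : ℝ) / 100 + 6 / 100000000) := by
  have := size_cs hT (List.length_filter_le p cs) hu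
  rwa [hs] at this

lemma size_JB {T : ℝ} (hT : 1 ≤ T) {p : ℕ → Bool} {s : ℕ} (hs : (cs.filter p).sum = s) {u : ℕ} (hu : u ∈ PU (JB T p)) :
    T ^ ((44 - s : ℝ) / 100) ≤ (u : ℝ) ∧ (u : ℝ) ≤ T ^ ((44 - s : ℝ) / 100 + 6 / 100000000) := by
  have := size_cs hT (List.length_filter_le _ cs) hu
  have h2 := sum_compl p
  rw [hs] at h2
  have h3 : ((cs.filter (fun c => !p c)).sum : ℝ) = 44 - s := by
    have : (s : ℝ) + ((cs.filter (fun c => !p c)).sum : ℝ) = 44 := by exact_mod_cast h2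
    linarith
  rwa [h3] at this

lemma size_IW {T : ℝ} (hT : 1 ≤ T) {w : ℕ} (hw : w ∈ IW T) : w.Prime ∧ T ^ (6 / 100 + 1 / 4000000 : ℝ) < (w : ℝ) ∧
    (w : ℝ) ≤ T ^ (6 / 100 + 1 / 4000000 + 1 / 100000000 : ℝ) := by
  obtain ⟨h1, h2, h3⟩ := IP_mem hw
  have e : (6 / 100 + (1 / 1000000) / 4 : ℝ) = 6 / 100 + 1 / 4000000 := by norm_num
  rw [e] at h2 h3
  exact ⟨h1, h2, h3 hT⟩

/-- every `s ≤ 44` is a subset sum -/
lemma sel_ex : ∀ s ≤ 40, ∃ p : ℕ → Bool, (cs.filter p).sum = s := by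
  have h : ∀ s ∈ List.range 41, ∃ A ∈ cs.sublists, (cs.filter (fun c => decide (c ∈ A))).sum = s := by decide
  intro s hs
  obtain ⟨A, -, hA⟩ := h s (List.mem_range.2 (by omega))
  exact ⟨_, hA⟩

lemma sel_zero : (cs.filter (fun _ => false)).sum = 0 := by simp

end Pool.Agent.Helper72.APU
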