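import Pool.Agent.Helper72.APU.Sel

/-!
# A', block UP, part 4: the facts about large `T`, the box estimates and the part `l ∣ u₂`
-/

open Filter Topology Finset
open Pool.Agent.Helper57.BG

set_option autoImplicit false

namespace Pool.Agent.Helper72.APU

open Pool.Agent.AP Pool.Agent.Helper64.Bt Pool.Agent.Helper64.UHs

/-- the prime type II estimate at `T` -/
def AtP (T : ℝ) : Prop := ∀ (k : ℤ) (Q1 Q P L M : ℝ) (QQ W LL : Finset ℕ)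
    (a al b lam be : ℕ → ℂ), k ≠ 0 → |(k : ℝ)| ≤ T ^ (1 / 1000000 : ℝ) →
    T ^ (1 / 100 : ℝ) / 2 ≤ Q1 → T ^ (1 / 100 : ℝ) / 2 ≤ Q →
    T ^ (3 / 50 : ℝ) / 2 ≤ P → P ≤ T ^ (3 / 50 + 1 / 1000000 : ℝ) →
    T ^ (1 / 1000 : ℝ) ≤ L / Q1 → L / Q1 ≤ T ^ (3 / 250 : ℝ) → L ≤ T ^ (41 / 100 : ℝ) →
    T ^ (1 / 2 : ℝ) / 8 ≤ Q1 * Q * P → Q1 * Q * P ≤ T ^ (1 / 2 + 1 / 1000000 : ℝ) →
    T ^ (1 - 1 / 1000000 : ℝ) ≤ M * L → M * L ≤ T ^ (1 + 1 / 1000000 : ℝ) →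
    (∀ q ∈ QQ, Squarefree q ∧ Q < q ∧ (q : ℝ) ≤ 2 * Q ∧ q.primeFactors.card ≤ 7 ∧
      ∀ r : ℕ, r.Prime → r ∣ q → T ^ (1 / 100 : ℝ) ≤ r) →
    (∀ w ∈ W, w.Prime ∧ P < w ∧ (w : ℝ) ≤ 2 * P) → (∀ w ∈ W, ∀ q ∈ QQ, Nat.Coprime w q) →
    (∀ l ∈ LL, l.Prime ∧ L < l ∧ (l : ℝ) ≤ 2 * L) →
    (∀ n, ‖a n‖ ≤ 1) → (∀ n, ‖al n‖ ≤ 1) → (∀ n, ‖b n‖ ≤ 1) → (∀ n, ‖lam n‖ ≤ 1) → (∀ n, ‖be n‖ ≤ 1) →
    ∀ D0 R0 : ℝ, ‖(⟨k, Q1, Q, P, L, M, D0, R0, 7, QQ, W, LL, b, lam, be⟩ : PD).S a al‖ ≤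
      T ^ (1 - 1 / 1000000 : ℝ)

/-- the tiny type II estimate at `T` -/
def AtS (T : ℝ) : Prop := ∀ (k : ℤ) (q1 : ℕ) (Q P X M : ℝ) (QQ W XX : Finset ℕ)
    (al b lam be : ℕ → ℂ), k ≠ 0 → |(k : ℝ)| ≤ T ^ (1 / 1000000 : ℝ) → 1 ≤ q1 → Int.gcd k q1 = 1 →
    1 ≤ Q → T ^ (3 / 50 : ℝ) / 2 ≤ P → P ≤ T ^ (3 / 50 + 1 / 1000000 : ℝ) →
    T ^ (1 / 2000 : ℝ) / 2 ≤ X → X ≤ T ^ (131 / 10000 : ℝ) →
    (q1 : ℝ) ≤ T ^ (1 / 1000000 : ℝ) →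
    T ^ (1 / 2 : ℝ) / 8 ≤ q1 * Q * P → q1 * Q * P ≤ T ^ (1 / 2 + 1 / 1000000 : ℝ) →
    T ^ (9 / 10 : ℝ) ≤ M * X → M * X ≤ T ^ (1 + 1 / 1000000 : ℝ) →
    (∀ q ∈ QQ, Squarefree q ∧ Q < q ∧ (q : ℝ) ≤ 2 * Q ∧ q.primeFactors.card ≤ 7 ∧
      ∀ r : ℕ, r.Prime → r ∣ q → T ^ (1 / 100 : ℝ) ≤ r) →
    (∀ w ∈ W, w.Prime ∧ P < w ∧ (w : ℝ) ≤ 2 * P) → (∀ w ∈ W, ∀ q ∈ QQ, Nat.Coprime w q) →
    (∀ x ∈ XX, X < x ∧ (x : ℝ) ≤ 2 * X ∧ Nat.Coprime x q1) →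
    (∀ x ∈ XX, ∀ q ∈ QQ, ∀ w ∈ W, Nat.Coprime x (q * w) ∨ x ∣ q * w) →
    (∀ n, ‖al n‖ ≤ 1) → (∀ n, ‖b n‖ ≤ 1) → (∀ n, ‖lam n‖ ≤ 1) → (∀ n, ‖be n‖ ≤ 1) →
    ∀ D0 R0 : ℝ, ‖(⟨k, q1, Q, P, X, M, D0, R0, 7, QQ, W, XX, b, lam, be⟩ : TD).S al‖ ≤
      T ^ (1 + 6 / 1000000 : ℝ) * X ^ (-(1 / 4) : ℝ) + T ^ (1 - 3 / 1000 : ℝ)

/-- the facts used about a large `T` -/
structure Big (T : ℝ) : Prop where
  one : 1 < T
  lg : 2 ^ 40 * (1 + Real.log T) ^ 5 ≤ T ^ (1 / 100000000 : ℝ)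
  mem : ∀ J : List (Finset ℕ), J.Sublist (IF T) → ∀ u ∈ PU J,
    Squarefree u ∧ u.primeFactors.card = J.length ∧ J.length ≤ 7 ∧ (∀ p : ℕ, p.Prime → p ∣ u → T ^ (1 / 100 : ℝ) < p) ∧
      (u : ℝ) ≤ T ^ (1 / 2 + 1 / 2000000 : ℝ) ∧ (J ≠ IF T → (u : ℝ) ≤ T ^ (491 / 1000 : ℝ))
  ubd : ∀ J : List (Finset ℕ), J.Sublist (IF T) → ∀ n : ℤ, n ≠ 0 → |(n : ℝ)| ≤ T ^ 2 → |UU J n| ≤ T ^ (1 / 100000000 : ℝ)
  b1 : ∀ J : List (Finset ℕ), J.Sublist (IF T) → J ≠ IF T → ∀ (k : ℤ) (M L M₀ L₀ : ℕ) (α β : ℕ → ℝ), k ≠ 0 →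
    |(k : ℝ)| ≤ T ^ (1 / 1000000 : ℝ) → M₀ ≤ M → L₀ ≤ L → T ^ (4 / 10000 : ℝ) ≤ M → T ^ (4 / 10000 : ℝ) ≤ L →
    (M : ℝ) * L ≤ T ^ (1 + 1 / 1000000 : ℝ) → (∀ m, |α m| ≤ 1) → (∀ l, |β l| ≤ 1) →
    |∑ m ∈ Ioc M₀ M, ∑ l ∈ Ioc L₀ L, α m * β l * UU J (m * l + k)| ≤ T ^ (1 - 4 / 10000 / 2 + 2 / 1000000 : ℝ)
  pP : AtP T
  pS : AtS T

/-- a bound of the number of dyadic boxes -/
noncomputable def NN (T : ℝ) : ℕ := ⌊4 * Real.log T⌋₊ + 1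

lemma NN_le {T : ℝ} (hT : 1 < T) : (NN T : ℝ) ≤ 4 * (1 + Real.log T) := by
  have h0 : 0 < Real.log T := Real.log_pos hT
  unfold NN
  push_cast
  have := Nat.floor_le (show 0 ≤ 4 * Real.log T by linarith)
  linarith

lemma log_lt {T : ℝ} (hT : 1 < T) {u : ℕ} (hu : (u : ℝ) ≤ T ^ 2) : Nat.log 2 u < NN T := by
  have h0 : 0 < Real.log T := Real.log_pos hT
  unfold NN
  rcases Nat.eq_zero_or_pos u with h | h
  · subst h; simp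
  have h1 : ((2 : ℝ)) ^ Nat.log 2 u ≤ T ^ 2 := by
    refine le_trans ?_ hu
    exact_mod_cast Nat.pow_log_le_self 2 h.ne'
  have h2 := Real.log_le_log (by positivity) h1
  rw [Real.log_pow, Real.log_pow] at h2
  have h3 := Real.log_two_gt_d9
  have h4 : (Nat.log 2 u : ℝ) ≤ 4 * Real.log T := by
    push_cast at h2
    nlinarith [Nat.cast_nonneg (α := ℝ) (Nat.log 2 u)]
  exact Nat.lt_succ_of_le (Nat.le_floor h4)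

lemma rp {T a b : ℝ} (hT : 1 < T) (h : a ≤ b) : T ^ a ≤ T ^ b := Real.rpow_le_rpow_of_exponent_le hT.le h

lemma two_le {T : ℝ} (hB : Big T) : 2 ≤ T ^ (1 / 100000000 : ℝ) := by
  have h0 : 0 < Real.log T := Real.log_pos hB.one
  have h1 : (1 : ℝ) ≤ (1 + Real.log T) ^ 5 := one_le_pow₀ (by linarith)
  refine le_trans ?_ hB.lg
  linarith

lemma IFp {T : ℝ} (hT : 1 < T) : ∀ I ∈ IF T, ∀ p ∈ I, p.Prime :=
  fun I hI p hp => (BPS.IF_prime hT I hI p hp).1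

lemma J2p {T : ℝ} (hT : 1 < T) (p : ℕ → Bool) : ∀ I ∈ IW T :: JB T p, ∀ q ∈ I, q.Prime := by
  intro I hI
  exact IFp hT I ((perm_sel T p).mem_iff.2 (List.mem_append_right _ hI))

lemma J2d {T : ℝ} (hT : 1 < T) (p : ℕ → Bool) : (IW T :: JB T p).Pairwise (fun I J => Disjoint I J) := by
  have h1 := ((perm_sel T p).pairwise_iff (R := fun I J => Disjoint I J) (fun h => h.symm)).1
    (BPS.IF_disj hT)
  exact h1.sublist (List.sublist_append_right _ _)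

lemma J2large {T : ℝ} (hT : 1 < T) (p : ℕ → Bool) :
    (∀ g : ℕ → ℝ, ∑ u ∈ PU (IW T :: JB T p), g u = ∑ q ∈ PU (JB T p), ∑ w ∈ IW T, g (q * w)) ∧
      (∀ q ∈ PU (JB T p), ∀ w ∈ IW T, Nat.Coprime q w ∧ q * w ∈ PU (IW T :: JB T p)) :=
  large (fun hp h1 h2 g => PU_split hp h1 h2 g) (List.perm_append_singleton _ _).symm (J2p hT p) (J2d hT p)

lemma gcd_one {T : ℝ} (hT : 1 < T) {k : ℤ} (hk : k ≠ 0) (hkT : |(k : ℝ)| ≤ T ^ (1 / 1000000 : ℝ)) {n : ℕ}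
    (hn : ∀ p : ℕ, p.Prime → p ∣ n → T ^ (1 / 100 : ℝ) < p) : Int.gcd (-k) n = 1 := by
  by_contra hne
  obtain ⟨p, hp, hpd⟩ := Nat.exists_prime_and_dvd hne
  have h1 : (p : ℤ) ∣ -k := (Int.natCast_dvd_natCast.2 hpd).trans (Int.gcd_dvd_left _ _)
  have h2 : p ∣ n := by
    have : (p : ℤ) ∣ n := (Int.natCast_dvd_natCast.2 hpd).trans (Int.gcd_dvd_right _ _)
    exact_mod_cast this
  have h3 := hn p hp h2
  have h4 : (p : ℤ) ≤ |k| := by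
    have := Int.le_of_dvd (abs_pos.2 hk) ((dvd_abs _ _).2 ((dvd_neg.1 h1)))
    exact this
  have h5 : (p : ℝ) ≤ |(k : ℝ)| := by
    have : ((p : ℤ) : ℝ) ≤ ((|k| : ℤ) : ℝ) := by exact_mod_cast h4
    simpa using this
  have h6 : T ^ (1 / 1000000 : ℝ) ≤ T ^ (1 / 100 : ℝ) := rp hT (by norm_num)
  linarith

lemma gf_JX {T : ℝ} (hB : Big T) {J : List (Finset ℕ)} (hJ : J.Sublist (IF T)) {u : ℕ} (hu : u ∈ PU J) : gf u ≤ 128 := by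
  obtain ⟨-, h1, h2, -⟩ := hB.mem J hJ u hu
  exact gf_le (h1 ▸ h2)

lemma gf_IW {T : ℝ} {w : ℕ} (hT : 1 < T) (hw : w ∈ IW T) : gf w ≤ 128 := by
  refine gf_le ?_
  rw [(size_IW hT.le hw).1.primeFactors, card_singleton]
  norm_num

lemma gf_J2 {T : ℝ} (hB : Big T) (p : ℕ → Bool) {u : ℕ} (hu : u ∈ PU (IW T :: JB T p)) : gf u ≤ 128 ^ 2 ∧ 0 < u ∧ (u : ℝ) ≤ T := by
  have hT := hB.one
  have hT0 : 0 < T := by linarith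
  have hu' := hu
  rw [PU, mem_image] at hu'
  obtain ⟨⟨w, q⟩, hwq, rfl⟩ := hu'
  obtain ⟨hw, hq⟩ := mem_product.1 hwq
  simp only at hw hq ⊢
  obtain ⟨hc, -⟩ := (J2large hT p).2 q hq w hw
  refine ⟨?_, ?_, ?_⟩
  · rw [gf_mul hc.symm]
    have h1 := gf_JX hB (JB_sub T p) hq
    have h2 := gf_IW hT hw
    nlinarith [gf_nonneg q, gf_nonneg w]
  · have h1 := (hB.mem _ (JB_sub T p) q hq).1
    exact Nat.mul_pos (size_IW hT.le hw).1.pos (Nat.pos_of_ne_zero h1.ne_zero)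
  · push_cast
    have h1 := (hB.mem _ (JB_sub T p) q hq).2.2.2.2.1
    have h2 := (size_IW hT.le hw).2.2
    calc (w : ℝ) * q ≤ T ^ (6 / 100 + 1 / 4000000 + 1 / 100000000 : ℝ) * T ^ (1 / 2 + 1 / 2000000 : ℝ) :=
          mul_le_mul h2 h1 (by positivity) (by positivity)
      _ = T ^ (6 / 100 + 1 / 4000000 + 1 / 100000000 + (1 / 2 + 1 / 2000000) : ℝ) := by rw [← Real.rpow_add hT0]
      _ ≤ T ^ (1 : ℝ) := rp hT (by norm_num)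
      _ = T := Real.rpow_one T

/-! ## the box estimates -/

/-- TIIP for a dyadic box in `m, l` -/
lemma boxP {T : ℝ} (hB : Big T) {k : ℤ} (hk : k ≠ 0) (hkT : |(k : ℝ)| ≤ T ^ (1 / 1000000 : ℝ)) {α β : ℕ → ℝ}
    (hα : ∀ m, |α m| ≤ 1) (hβ : ∀ l, |β l| ≤ 1) {p : ℕ → Bool} {s : ℕ} (hs : (cs.filter p).sum = s) (hs1 : 1 ≤ s)
    (hs40 : s ≤ 40) {X Y : ℝ} (hX : 0 ≤ X) (h1 : T ^ (1 - 1 / 1000000 : ℝ) ≤ X * Y)
    (h2 : X * Y ≤ T ^ (1 + 1 / 1000000 : ℝ)) (hY : Y ≤ T ^ (41 / 100 : ℝ))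
    (hY1 : T ^ ((s : ℝ) / 100 + 11 / 10000) ≤ Y) (hY2 : Y ≤ T ^ (((s : ℝ) + 1) / 100 + 11 / 10000))
    {Sm Sl : Finset ℕ} (hm : ∀ m ∈ Sm, X < m ∧ (m : ℝ) ≤ 2 * X) (hl : ∀ l ∈ Sl, l.Prime ∧ Y < l ∧ (l : ℝ) ≤ 2 * Y) :
    |BX k α β (PU (JA T p)) (PU (JB T p)) (IW T) Sm Sl| ≤ (NN T : ℝ) ^ 3 * (128 ^ 3 * T ^ (1 - 1 / 1000000 : ℝ)) := by
  have hT := hB.one
  have hT0 : 0 < T := by linarith
  have hle2 : ∀ J : List (Finset ℕ), J.Sublist (IF T) → ∀ u ∈ PU J, Nat.log 2 u < NN T := by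
    intro J hJ u hu
    refine log_lt hT (le_trans (hB.mem J hJ u hu).2.2.2.2.1 ?_)
    rw [← Real.rpow_natCast]
    exact rp hT (by norm_num)
  have hw2 : ∀ u ∈ IW T, Nat.log 2 u < NN T := by
    intro u hu
    refine log_lt hT (le_trans (size_IW hT.le hu).2.2 ?_)
    rw [← Real.rpow_natCast]
    exact rp hT (by norm_num)
  unfold BX
  refine dy3 (hle2 _ (JA_sub T p)) (hle2 _ (JB_sub T p)) hw2 _ _ fun i j r => ?_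
  set S1 := (PU (JA T p)).filter (fun u => Nat.log 2 u = i) with hS1
  set Sq := (PU (JB T p)).filter (fun u => Nat.log 2 u = j) with hSq
  set Sw := (IW T).filter (fun u => Nat.log 2 u = r) with hSw
  have hpos : 0 ≤ 128 ^ 3 * T ^ (1 - 1 / 1000000 : ℝ) := by positivity
  rcases S1.eq_empty_or_nonempty with he | ⟨q1, hq1⟩
  · rw [he]; simpa using hpos
  rcases Sq.eq_empty_or_nonempty with he | ⟨q, hq⟩
  · rw [he]; simpa using hpos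
  rcases Sw.eq_empty_or_nonempty with he | ⟨w, hw⟩
  · rw [he]; simpa using hpos
  -- facts about the members
  have f1 : ∀ n ∈ S1, dyX i < n ∧ (n : ℝ) ≤ 2 * dyX i := fun n hn => by
    obtain ⟨ha, hb⟩ := mem_filter.1 hn
    exact dyX_spec (hB.mem _ (JA_sub T p) n ha).1.ne_zero hb
  have fq : ∀ n ∈ Sq, dyX j < n ∧ (n : ℝ) ≤ 2 * dyX j := fun n hn => by
    obtain ⟨ha, hb⟩ := mem_filter.1 hn
    exact dyX_spec (hB.mem _ (JB_sub T p) n ha).1.ne_zero hb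
  have fw : ∀ n ∈ Sw, dyX r < n ∧ (n : ℝ) ≤ 2 * dyX r := fun n hn => by
    obtain ⟨ha, hb⟩ := mem_filter.1 hn
    exact dyX_spec (size_IW hT.le ha).1.ne_zero hb
  have p1 := dyX_pos i
  have pq := dyX_pos j
  have pw := dyX_pos r
  obtain ⟨a1, b1⟩ := size_JA hT.le hs (mem_filter.1 hq1).1
  obtain ⟨aq, bq⟩ := size_JB hT.le hs (mem_filter.1 hq).1
  obtain ⟨-, aw, bw⟩ := size_IW hT.le (mem_filter.1 hw).1
  obtain ⟨c1, d1⟩ := f1 q1 hq1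
  obtain ⟨cq, dq⟩ := fq q hq
  obtain ⟨cw, dw⟩ := fw w hw
  have hs1' : (1 : ℝ) ≤ s := by exact_mod_cast hs1
  have hs40' : (s : ℝ) ≤ 40 := by exact_mod_cast hs40
  have hgcd : ∀ n ∈ S1, Int.gcd (-k) n = 1 := by
    intro n hn
    exact gcd_one hT hk hkT (hB.mem _ (JA_sub T p) n (mem_filter.1 hn).1).2.2.2.1
  have hres := hB.pP (-k) (dyX i) (dyX j) (dyX r) Y X Sq Sw Sl (wt S1) (rs Sm α) (wt Sq) (wt Sw) (rs Sl β)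
    (neg_ne_zero.2 hk) (by push_cast; rwa [abs_neg]) ?_ ?_ ?_ ?_ ?_ ?_ hY ?_ ?_ h1 h2 ?_ ?_ ?_ hl ?_ ?_ ?_ ?_ ?_ 0 0
  · rw [PDS_eq k α β (dyX i) (dyX j) (dyX r) Y X 0 0 S1 Sq Sw Sm Sl p1.le hX f1 hgcd hm, Complex.norm_real,
      Real.norm_eq_abs, abs_mul, abs_of_nonneg (by norm_num : (0 : ℝ) ≤ (1 / 128) ^ 3)] at hres
    have e : |BX k α β S1 Sq Sw Sm Sl| = 128 ^ 3 * ((1 / 128) ^ 3 * |BX k α β S1 Sq Sw Sm Sl|) := by ring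
    change |BX k α β S1 Sq Sw Sm Sl| ≤ _
    rw [e]
    exact mul_le_mul_of_nonneg_left hres (by norm_num)
  · -- `Q1`
    have : T ^ (1 / 100 : ℝ) ≤ T ^ ((s : ℝ) / 100) := rp hT (by linarith)
    linarith
  · have : T ^ (1 / 100 : ℝ) ≤ T ^ ((44 - s : ℝ) / 100) := rp hT (by linarith)
    linarith
  · have : T ^ (3 / 50 : ℝ) ≤ T ^ (6 / 100 + 1 / 4000000 : ℝ) := rp hT (by norm_num)
    linarith
  · have : T ^ (6 / 100 + 1 / 4000000 + 1 / 100000000 : ℝ) ≤ T ^ (3 / 50 + 1 / 1000000 : ℝ) := rp hT (by norm_num)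
    linarith
  · -- `T^.001 ≤ Y / Q1`
    rw [le_div_iff₀ p1]
    calc T ^ (1 / 1000 : ℝ) * dyX i ≤ T ^ (1 / 1000 : ℝ) * T ^ ((s : ℝ) / 100 + 6 / 100000000) := by gcongr; linarith
      _ = T ^ (1 / 1000 + ((s : ℝ) / 100 + 6 / 100000000)) := by rw [← Real.rpow_add hT0]
      _ ≤ T ^ ((s : ℝ) / 100 + 11 / 10000) := rp hT (by linarith)
      _ ≤ Y := hY1
  · rw [div_le_iff₀ p1]
    have g1 : T ^ ((s : ℝ) / 100) ≤ 2 * dyX i := a1.trans d1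
    calc Y ≤ T ^ (((s : ℝ) + 1) / 100 + 11 / 10000) := hY2
      _ = T ^ ((s : ℝ) / 100) * T ^ (111 / 10000 : ℝ) := by rw [← Real.rpow_add hT0]; congr 1; ring
      _ ≤ (2 * dyX i) * T ^ (111 / 10000 : ℝ) := by gcongr
      _ = (2 * T ^ (111 / 10000 : ℝ)) * dyX i := by ring
      _ ≤ (T ^ (1 / 100000000 : ℝ) * T ^ (111 / 10000 : ℝ)) * dyX i := by gcongr; exact two_le hB
      _ = T ^ (1 / 100000000 + 111 / 10000 : ℝ) * dyX i := by rw [← Real.rpow_add hT0]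
      _ ≤ T ^ (3 / 250 : ℝ) * dyX i := by gcongr ?_ * _; exact rp hT (by norm_num)
  · -- lower bound of the modulus
    have g : T ^ (1 / 2 : ℝ) ≤ (2 * dyX i) * (2 * dyX j) * (2 * dyX r) := by
      calc T ^ (1 / 2 : ℝ) ≤ T ^ ((s : ℝ) / 100 + (44 - s : ℝ) / 100 + (6 / 100 + 1 / 4000000)) := rp hT (by linarith)
        _ = T ^ ((s : ℝ) / 100) * T ^ ((44 - s : ℝ) / 100) * T ^ (6 / 100 + 1 / 4000000 : ℝ) := by
            rw [Real.rpow_add hT0, Real.rpow_add hT0]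
        _ ≤ _ := by
            refine mul_le_mul (mul_le_mul (a1.trans d1) (aq.trans dq) (by positivity) (by positivity))
              (aw.le.trans dw) (by positivity) (by positivity)
    linarith
  · calc dyX i * dyX j * dyX r ≤ T ^ ((s : ℝ) / 100 + 6 / 100000000) * T ^ ((44 - s : ℝ) / 100 + 6 / 100000000) *
          T ^ (6 / 100 + 1 / 4000000 + 1 / 100000000 : ℝ) := by
          refine mul_le_mul (mul_le_mul (c1.le.trans b1) (cq.le.trans bq) pq.le (by positivity)) (cw.le.trans bw) pw.le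
            (by positivity)
      _ = T ^ ((s : ℝ) / 100 + 6 / 100000000 + ((44 - s : ℝ) / 100 + 6 / 100000000) +
          (6 / 100 + 1 / 4000000 + 1 / 100000000)) := by rw [← Real.rpow_add hT0, ← Real.rpow_add hT0]
      _ ≤ _ := rp hT (by linarith)
  · intro n hn
    obtain ⟨e1, e2, e3, e4, -⟩ := hB.mem _ (JB_sub T p) n (mem_filter.1 hn).1
    exact ⟨e1, (fq n hn).1, (fq n hn).2, e2 ▸ e3, fun r hr hrn => (e4 r hr hrn).le⟩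
  · intro n hn
    exact ⟨(size_IW hT.le (mem_filter.1 hn).1).1, (fw n hn).1, (fw n hn).2⟩
  · intro n hn n' hn'
    exact ((J2large hT p).2 n' (mem_filter.1 hn').1 n (mem_filter.1 hn).1).1.symm
  · exact wt_norm fun n hn => gf_JX hB (JA_sub T p) (mem_filter.1 hn).1
  · exact rs_norm hα
  · exact wt_norm fun n hn => gf_JX hB (JB_sub T p) (mem_filter.1 hn).1
  · exact wt_norm fun n hn => gf_IW hT (mem_filter.1 hn).1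
  · exact rs_norm hβ

end Pool.Agent.Helper72.APU
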