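import Pool.Agent.Helper72.APU.Vv

/-!
# A', block UP, part 5: the tiny box estimate, the part `l ∣ u₂`, the structured sum
-/

open Filter Topology Finset
open Pool.Agent.Helper57.BG

set_option autoImplicit false

namespace Pool.Agent.Helper72.APU

open Pool.Agent.AP Pool.Agent.Helper64.Bt Pool.Agent.Helper64.UHs

/-- the empty selection -/
def pz : ℕ → Bool := fun _ => false

lemma PU_JA0 (T : ℝ) : PU (JA T pz) = {1} := by
  have : JA T pz = [] := by unfold JA pz; simp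
  rw [this, PU]

lemma pz_sum : (cs.filter pz).sum = 0 := by unfold pz; simp

/-- TIIS for a dyadic box in `m, l` -/
lemma boxS {T : ℝ} (hB : Big T) {k : ℤ} (hk : k ≠ 0) (hkT : |(k : ℝ)| ≤ T ^ (1 / 1000000 : ℝ)) {α β : ℕ → ℝ}
    (hα : ∀ m, |α m| ≤ 1) (hβ : ∀ l, |β l| ≤ 1) {X Y : ℝ} (hX : 0 ≤ X) (h1 : T ^ (1 - 1 / 1000000 : ℝ) ≤ X * Y)
    (h2 : X * Y ≤ T ^ (1 + 1 / 1000000 : ℝ)) (hY1 : T ^ (1 / 2000 : ℝ) / 2 ≤ Y) (hY2 : Y ≤ T ^ (131 / 10000 : ℝ))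
    {Sm Sl : Finset ℕ} (hm : ∀ m ∈ Sm, X < m ∧ (m : ℝ) ≤ 2 * X) (hl : ∀ l ∈ Sl, l.Prime ∧ Y < l ∧ (l : ℝ) ≤ 2 * Y) :
    |BX k α β (PU (JA T pz)) (PU (JB T pz)) (IW T) Sm Sl| ≤ (NN T : ℝ) ^ 3 * (128 ^ 3 * T ^ (1 - 1 / 1000000 : ℝ)) := by
  have hT := hB.one
  have hT0 : 0 < T := by linarith
  have hle2 : ∀ J : List (Finset ℕ), J.Sublist (IF T) → ∀ u ∈ PU J, Nat.log 2 u < NN T := by
    intro J hJ u hu
    refine log_lt hT (le_trans (hB.mem J hJ u hu).2.2.2.2.1 ?_)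
    rw [← Real.rpow_natCast]
    exact rp hT (by norm_num)
  have hw2 : ∀ u ∈ IW T, Nat.log 2 u < NN T := by
    intro u hu
    refine log_lt hT (le_trans (size_IW hT.le hu).2.2 ?_)
    rw [← Real.rpow_natCast]
    exact rp hT (by norm_num)
  unfold BX
  refine dy3 (hle2 _ (JA_sub T pz)) (hle2 _ (JB_sub T pz)) hw2 _ _ fun i j r => ?_
  set Sq := (PU (JB T pz)).filter (fun u => Nat.log 2 u = j) with hSq
  set Sw := (IW T).filter (fun u => Nat.log 2 u = r) with hSw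
  have hpos : 0 ≤ 128 ^ 3 * T ^ (1 - 1 / 1000000 : ℝ) := by positivity
  rw [PU_JA0]
  by_cases hi : Nat.log 2 1 = i
  swap
  · rw [filter_singleton, if_neg hi]; simpa using hpos
  rw [filter_singleton, if_pos hi]
  rcases Sq.eq_empty_or_nonempty with he | ⟨q, hq⟩
  · rw [he]; simpa using hpos
  rcases Sw.eq_empty_or_nonempty with he | ⟨w, hw⟩
  · rw [he]; simpa using hpos
  have fq : ∀ n ∈ Sq, dyX j < n ∧ (n : ℝ) ≤ 2 * dyX j := fun n hn => by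
    obtain ⟨ha, hb⟩ := mem_filter.1 hn
    exact dyX_spec (hB.mem _ (JB_sub T pz) n ha).1.ne_zero hb
  have fw : ∀ n ∈ Sw, dyX r < n ∧ (n : ℝ) ≤ 2 * dyX r := fun n hn => by
    obtain ⟨ha, hb⟩ := mem_filter.1 hn
    exact dyX_spec (size_IW hT.le ha).1.ne_zero hb
  have pq := dyX_pos j
  have pw := dyX_pos r
  obtain ⟨aq, bq⟩ := size_JB hT.le pz_sum (mem_filter.1 hq).1
  obtain ⟨-, aw, bw⟩ := size_IW hT.le (mem_filter.1 hw).1
  obtain ⟨cq, dq⟩ := fq q hq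
  obtain ⟨cw, dw⟩ := fw w hw
  push_cast at aq bq
  have h2le := two_le hB
  have hres := hB.pS (-k) 1 (dyX j) (dyX r) Y X Sq Sw Sl (rs Sm α) (wt Sq) (wt Sw) (rs Sl β)
    (neg_ne_zero.2 hk) (by push_cast; rwa [abs_neg]) le_rfl ?_ ?_ ?_ ?_ hY1 hY2 ?_ ?_ ?_ ?_ h2 ?_ ?_ ?_ ?_ ?_ ?_ ?_ ?_ ?_ 0 0
  · rw [TDS_eq k α β (dyX j) (dyX r) Y X 0 0 Sq Sw Sm Sl hX hm (fun l hl' => (hl l hl').1), Complex.norm_real,
      Real.norm_eq_abs, abs_mul, abs_of_nonneg (by norm_num : (0 : ℝ) ≤ (1 / 128) ^ 2)] at hres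
    have e : |BX k α β {1} Sq Sw Sm Sl| = 128 ^ 2 * ((1 / 128) ^ 2 * |BX k α β {1} Sq Sw Sm Sl|) := by ring
    change |BX k α β {1} Sq Sw Sm Sl| ≤ _
    rw [e]
    have g1 : T ^ (1 + 6 / 1000000 : ℝ) * Y ^ (-(1 / 4) : ℝ) ≤ 2 * T ^ (1 - 1 / 1000000 : ℝ) := by
      have g2 : Y ^ (-(1 / 4) : ℝ) ≤ (T ^ (1 / 2000 : ℝ) / 2) ^ (-(1 / 4) : ℝ) :=
        Real.rpow_le_rpow_of_nonpos (by positivity) hY1 (by norm_num)
      have g3 : (T ^ (1 / 2000 : ℝ) / 2) ^ (-(1 / 4) : ℝ) = T ^ (-(1 / 8000) : ℝ) * (2 : ℝ) ^ (1 / 4 : ℝ) := by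
        rw [Real.div_rpow (by positivity) (by norm_num), ← Real.rpow_mul hT0.le, Real.rpow_neg (by norm_num : (0:ℝ) ≤ 2),
          div_inv_eq_mul]
        norm_num
      have g4 : (2 : ℝ) ^ (1 / 4 : ℝ) ≤ 2 := by
        calc (2 : ℝ) ^ (1 / 4 : ℝ) ≤ (2 : ℝ) ^ (1 : ℝ) := Real.rpow_le_rpow_of_exponent_le (by norm_num) (by norm_num)
          _ = 2 := Real.rpow_one 2
      calc T ^ (1 + 6 / 1000000 : ℝ) * Y ^ (-(1 / 4) : ℝ) ≤
            T ^ (1 + 6 / 1000000 : ℝ) * (T ^ (-(1 / 8000) : ℝ) * (2 : ℝ) ^ (1 / 4 : ℝ)) := by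
            rw [← g3]; gcongr
        _ = T ^ (1 + 6 / 1000000 + -(1 / 8000) : ℝ) * (2 : ℝ) ^ (1 / 4 : ℝ) := by
            rw [Real.rpow_add hT0 (1 + 6 / 1000000)]; ring
        _ ≤ T ^ (1 - 1 / 1000000 : ℝ) * 2 := by
            gcongr
            exact hT.le
            norm_num
        _ = _ := by ring
    have g5 : T ^ (1 - 3 / 1000 : ℝ) ≤ T ^ (1 - 1 / 1000000 : ℝ) := rp hT (by norm_num)
    have g6 : 0 ≤ T ^ (1 - 1 / 1000000 : ℝ) := by positivity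
    nlinarith
  · simp
  · -- `1 ≤ Q`
    have e1 : (2 : ℝ) ≤ T ^ ((44 - 0 : ℝ) / 100) := h2le.trans (rp hT (by norm_num))
    linarith
  · have : T ^ (3 / 50 : ℝ) ≤ T ^ (6 / 100 + 1 / 4000000 : ℝ) := rp hT (by norm_num)
    linarith
  · have : T ^ (6 / 100 + 1 / 4000000 + 1 / 100000000 : ℝ) ≤ T ^ (3 / 50 + 1 / 1000000 : ℝ) := rp hT (by norm_num)
    linarith
  · push_cast
    exact Real.one_le_rpow hT.le (by norm_num)
  · have g : T ^ (1 / 2 : ℝ) ≤ (2 * dyX j) * (2 * dyX r) := by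
      calc T ^ (1 / 2 : ℝ) = T ^ ((44 - 0 : ℝ) / 100 + 6 / 100) := by congr 1; norm_num
        _ ≤ T ^ ((44 - 0 : ℝ) / 100 + (6 / 100 + 1 / 4000000)) := rp hT (by norm_num)
        _ = T ^ ((44 - 0 : ℝ) / 100) * T ^ (6 / 100 + 1 / 4000000 : ℝ) := by
            rw [Real.rpow_add hT0]
        _ ≤ _ := mul_le_mul (aq.trans dq) (aw.le.trans dw) (by positivity) (by positivity)
    push_cast
    nlinarith [mul_pos pq pw]
  · push_cast
    calc 1 * dyX j * dyX r = dyX j * dyX r := by ring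
      _ ≤ T ^ ((44 - 0 : ℝ) / 100 + 6 / 100000000) * T ^ (6 / 100 + 1 / 4000000 + 1 / 100000000 : ℝ) :=
          mul_le_mul (cq.le.trans bq) (cw.le.trans bw) pw.le (by positivity)
      _ = T ^ ((44 - 0 : ℝ) / 100 + 6 / 100000000 + (6 / 100 + 1 / 4000000 + 1 / 100000000)) := by rw [← Real.rpow_add hT0]
      _ ≤ _ := rp hT (by norm_num)
  · exact (rp hT (by norm_num)).trans h1
  · intro n hn
    obtain ⟨e1, e2, e3, e4, -⟩ := hB.mem _ (JB_sub T pz) n (mem_filter.1 hn).1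
    exact ⟨e1, (fq n hn).1, (fq n hn).2, e2 ▸ e3, fun r hr hrn => (e4 r hr hrn).le⟩
  · intro n hn
    exact ⟨(size_IW hT.le (mem_filter.1 hn).1).1, (fw n hn).1, (fw n hn).2⟩
  · intro n hn n' hn'
    exact ((J2large hT pz).2 n' (mem_filter.1 hn').1 n (mem_filter.1 hn).1).1.symm
  · intro x hx
    exact ⟨(hl x hx).2.1, (hl x hx).2.2, Nat.coprime_one_right x⟩
  · intro x hx q' _ w' _
    exact (Nat.coprime_or_dvd_of_prime (hl x hx).1 _)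
  · exact rs_norm hα
  · exact wt_norm fun n hn => gf_JX hB (JB_sub T pz) (mem_filter.1 hn).1
  · exact wt_norm fun n hn => gf_IW hT (mem_filter.1 hn).1
  · exact rs_norm hβ

/-! ## the part `l ∣ u₂` -/

lemma sum_dvd {S : Finset ℕ} {l : ℕ} {U : ℝ} (hl : 0 < l) (hU : 1 ≤ U) (hS : ∀ u ∈ S, l ∣ u ∧ 0 < u ∧ (u : ℝ) ≤ U) :
    ∑ u ∈ S, 1 / (u : ℝ) ≤ (1 + Real.log U) / l := by
  have h1 : ∀ u ∈ S, 1 / (u : ℝ) = (1 / (l : ℝ)) * (1 / ((u / l : ℕ) : ℝ)) := by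
    intro u hu
    obtain ⟨c, hc⟩ := (hS u hu).1
    subst hc
    rw [Nat.mul_div_cancel_left c hl]
    push_cast
    rw [one_div_mul_one_div]
  rw [sum_congr rfl h1, ← mul_sum]
  have h2 : ∑ u ∈ S, 1 / ((u / l : ℕ) : ℝ) ≤ ∑ v ∈ Icc 1 ⌊U⌋₊, 1 / (v : ℝ) := by
    rw [← sum_image (f := fun v : ℕ => 1 / (v : ℝ)) (g := fun u => u / l)]
    · refine sum_le_sum_of_subset_of_nonneg ?_ (fun _ _ _ => by positivity)
      intro v hv
      obtain ⟨u, hu, rfl⟩ := mem_image.1 hv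
      obtain ⟨h3, h4, h5⟩ := hS u hu
      rw [mem_Icc]
      refine ⟨Nat.div_pos (Nat.le_of_dvd h4 h3) hl, Nat.le_floor ?_⟩
      exact le_trans (by exact_mod_cast Nat.div_le_self u l) h5
    · intro a ha b hb hab
      have ha' := (hS a (mem_coe.1 ha)).1
      have hb' := (hS b (mem_coe.1 hb)).1
      simp only at hab
      rw [← Nat.div_mul_cancel ha', ← Nat.div_mul_cancel hb', hab]
  have h3 : ∑ v ∈ Icc 1 ⌊U⌋₊, 1 / (v : ℝ) ≤ 1 + Real.log U := by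
    have h4 := harmonic_le_one_add_log ⌊U⌋₊
    have h5 : ((harmonic ⌊U⌋₊ : ℚ) : ℝ) = ∑ v ∈ Icc 1 ⌊U⌋₊, 1 / (v : ℝ) := by
      rw [harmonic_eq_sum_Icc]
      push_cast
      exact sum_congr rfl fun v _ => by rw [one_div]
    rw [← h5]
    refine h4.trans ?_
    have h6 : (1 : ℝ) ≤ ⌊U⌋₊ := by exact_mod_cast Nat.floor_pos.2 hU
    have := Real.log_le_log (by linarith) (Nat.floor_le (by linarith : 0 ≤ U))
    linarith
  calc 1 / (l : ℝ) * ∑ u ∈ S, 1 / ((u / l : ℕ) : ℝ) ≤ 1 / (l : ℝ) * (1 + Real.log U) := by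
        gcongr
        exact h2.trans h3
    _ = _ := by ring

open Classical in
/-- the inner sum of the part `l ∣ u₂` -/
noncomputable def DI (J1 J2 : List (Finset ℕ)) (l : ℕ) (n : ℤ) : ℝ :=
  ∑ u₁ ∈ PU J1, ∑ u₂ ∈ (PU J2).filter (fun u => l ∣ u), (u₁ : ℝ) / Nat.totient u₁ * ((u₂ : ℝ) / Nat.totient u₂) *
    ((if ((u₁ * u₂ : ℕ) : ℤ) ∣ n then (1 : ℝ) else 0) - (1 / u₂) * (if (u₁ : ℤ) ∣ n then (1 : ℝ) else 0))

/-- `∑ 1/φ` over a sublist -/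
lemma tot_le {T : ℝ} (hB : Big T) {J : List (Finset ℕ)} (hJ : J.Sublist (IF T)) :
    ∑ u ∈ PU J, 1 / (Nat.totient u : ℝ) ≤ 128 * (1 + Real.log T) := by
  have hT := hB.one
  calc ∑ u ∈ PU J, 1 / (Nat.totient u : ℝ) ≤ ∑ u ∈ PU J, 128 * (1 / (u : ℝ)) := by
        refine sum_le_sum fun u hu => ?_
        have h1 := gf_JX hB hJ hu
        unfold gf at h1
        have h2 : (0 : ℝ) < u := by exact_mod_cast Nat.pos_of_ne_zero (hB.mem J hJ u hu).1.ne_zero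
        have h3 : 1 / (Nat.totient u : ℝ) = ((u : ℝ) / Nat.totient u) * (1 / u) := by field_simp
        rw [h3]
        gcongr
    _ = 128 * ∑ u ∈ PU J, 1 / (u : ℝ) := by rw [mul_sum]
    _ ≤ 128 * ((1 + Real.log T) / (1 : ℕ)) := by
        gcongr
        refine sum_dvd one_pos hT.le fun u hu => ⟨one_dvd u, Nat.pos_of_ne_zero (hB.mem J hJ u hu).1.ne_zero, ?_⟩
        refine (hB.mem J hJ u hu).2.2.2.2.1.trans ?_
        exact (rp hT (by norm_num)).trans (Real.rpow_one T).le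
    _ = _ := by push_cast; ring

/-- `∑ 1/φ` over the second factor -/
lemma tot2_le {T : ℝ} (hB : Big T) (p : ℕ → Bool) {l : ℕ} (hl : 0 < l) :
    ∑ u ∈ (PU (IW T :: JB T p)).filter (fun u => l ∣ u), 1 / (Nat.totient u : ℝ) ≤ 128 ^ 2 * ((1 + Real.log T) / l) := by
  have hT := hB.one
  calc ∑ u ∈ (PU (IW T :: JB T p)).filter (fun u => l ∣ u), 1 / (Nat.totient u : ℝ) ≤
      ∑ u ∈ (PU (IW T :: JB T p)).filter (fun u => l ∣ u), 128 ^ 2 * (1 / (u : ℝ)) := by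
        refine sum_le_sum fun u hu => ?_
        obtain ⟨h1, h0, -⟩ := gf_J2 hB p (mem_filter.1 hu).1
        unfold gf at h1
        have h2 : (0 : ℝ) < u := by exact_mod_cast h0
        have h3 : 1 / (Nat.totient u : ℝ) = ((u : ℝ) / Nat.totient u) * (1 / u) := by field_simp
        rw [h3]
        gcongr
    _ = 128 ^ 2 * ∑ u ∈ (PU (IW T :: JB T p)).filter (fun u => l ∣ u), 1 / (u : ℝ) := by rw [mul_sum]
    _ ≤ _ := by
        gcongr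
        refine sum_dvd hl hT.le fun u hu => ?_
        obtain ⟨-, h0, h1⟩ := gf_J2 hB p (mem_filter.1 hu).1
        exact ⟨(mem_filter.1 hu).2, h0, h1⟩

lemma DI_le {T : ℝ} (hB : Big T) (p : ℕ → Bool) {l : ℕ} (hl : l.Prime) {n : ℤ} (hn : n ≠ 0) (hnT : |(n : ℝ)| ≤ T ^ 2)
    (hln : ¬ (l : ℤ) ∣ n) :
    |DI (JA T p) (IW T :: JB T p) l n| ≤ (T ^ (1 / 100000000 : ℝ) + 128 * (1 + Real.log T)) *
      (128 ^ 2 * ((1 + Real.log T) / l)) := by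
  have hT := hB.one
  have hT0 : 0 < T := by linarith
  have h1 : DI (JA T p) (IW T :: JB T p) l n = -((∑ u ∈ PU (JA T p), (u : ℝ) / Nat.totient u * (if (u : ℤ) ∣ n then (1 : ℝ) else 0)) *
      ∑ u ∈ (PU (IW T :: JB T p)).filter (fun u => l ∣ u), 1 / (Nat.totient u : ℝ)) := by
    unfold DI
    rw [sum_mul_sum, ← sum_neg_distrib]
    refine sum_congr rfl fun u₁ _ => ?_
    rw [← sum_neg_distrib]
    refine sum_congr rfl fun u₂ h₂ => ?_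
    obtain ⟨h3, h4⟩ := mem_filter.1 h₂
    have h5 : ¬ ((u₁ * u₂ : ℕ) : ℤ) ∣ n := fun h => hln ((Int.natCast_dvd_natCast.2 (h4.mul_left u₁)).trans h)
    rw [if_neg h5]
    have h6 : (0 : ℝ) < u₂ := by exact_mod_cast (gf_J2 hB p h3).2.1
    field_simp
    ring
  have h2 : ∑ u ∈ PU (JA T p), (u : ℝ) / Nat.totient u * (if (u : ℤ) ∣ n then (1 : ℝ) else 0) =
      UU (JA T p) n + ∑ u ∈ PU (JA T p), 1 / (Nat.totient u : ℝ) := by
    unfold UU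
    rw [← sum_add_distrib]
    refine sum_congr rfl fun u hu => ?_
    have h6 : (0 : ℝ) < u := by exact_mod_cast Nat.pos_of_ne_zero (hB.mem _ (JA_sub T p) u hu).1.ne_zero
    field_simp
    ring
  have h3 : 0 ≤ ∑ u ∈ PU (JA T p), (u : ℝ) / Nat.totient u * (if (u : ℤ) ∣ n then (1 : ℝ) else 0) :=
    sum_nonneg fun u _ => by positivity
  have h4 : 0 ≤ ∑ u ∈ (PU (IW T :: JB T p)).filter (fun u => l ∣ u), 1 / (Nat.totient u : ℝ) :=
    sum_nonneg fun u _ => by positivity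
  have h5 := tot2_le hB p (l := l) hl.pos
  have h6 := tot_le hB (JA_sub T p)
  have h7 := le_trans (le_abs_self _) (hB.ubd _ (JA_sub T p) n hn hnT)
  rw [h1, abs_neg, abs_of_nonneg (mul_nonneg h3 h4)]
  refine mul_le_mul ?_ h5 h4 ?_
  · rw [h2]
    linarith
  · have : 0 < Real.log T := Real.log_pos hT
    positivity

end Pool.Agent.Helper72.APU
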